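import Mathlib

/-! Intuitionistic and classical first-order arithmetic: formulas, structures, Peano and Heyting
arithmetic, Kripke models. -/

set_option autoImplicit false

namespace Pool.Agent.H872R3.KH

/-- Terms of the language `0, S, +, ·` whose variables are among `x_0, …, x_{n-1}`. -/
inductive Tm (n : ℕ) : Type
  | var (i : Fin n) : Tm n
  | zero : Tm n
  | succ (t : Tm n) : Tm n
  | add (t s : Tm n) : Tm n
  | mul (t s : Tm n) : Tm n

/-- Formulas of the language `0, S, +, ·, =` whose free variables are among `x_0, …, x_{n-1}`.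
The quantifiers bind the variable `x_0` of their scope and the other variables of the scope are
numbered up by one. Negation is `φ → ⊥`. Sentences are the members of `Fm 0`. -/
inductive Fm : ℕ → Type
  | bot {n : ℕ} : Fm n
  | eq {n : ℕ} (t s : Tm n) : Fm n
  | and {n : ℕ} (φ ψ : Fm n) : Fm n
  | or {n : ℕ} (φ ψ : Fm n) : Fm n
  | imp {n : ℕ} (φ ψ : Fm n) : Fm n
  | all {n : ℕ} (φ : Fm (n + 1)) : Fm n
  | ex {n : ℕ} (φ : Fm (n + 1)) : Fm n

/-- Classical structures for the language `0, S, +, ·` (equality is equality) with domain `M`. -/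
structure Str (M : Type) where
  zero : M
  succ : M → M
  add : M → M → M
  mul : M → M → M

/-- The value of a term in a structure. -/
def Tm.ev {M : Type} (A : Str M) {n : ℕ} (v : Fin n → M) : Tm n → M
  | .var i => v i
  | .zero => A.zero
  | .succ t => A.succ (t.ev A v)
  | .add t s => A.add (t.ev A v) (s.ev A v)
  | .mul t s => A.mul (t.ev A v) (s.ev A v)

/-- The assignment `a, v 0, v 1, …`. -/
def cns {M : Type} {n : ℕ} (a : M) (v : Fin n → M) : Fin (n + 1) → M :=
  fun i => Fin.cases a v i

/-- Classical satisfaction in a structure. -/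
def Sat {M : Type} (A : Str M) : {n : ℕ} → Fm n → (Fin n → M) → Prop
  | _, .bot, _ => False
  | _, .eq t s, v => t.ev A v = s.ev A v
  | _, .and φ ψ, v => Sat A φ v ∧ Sat A ψ v
  | _, .or φ ψ, v => Sat A φ v ∨ Sat A ψ v
  | _, .imp φ ψ, v => Sat A φ v → Sat A ψ v
  | _, .all φ, v => ∀ a, Sat A φ (cns a v)
  | _, .ex φ, v => ∃ a, Sat A φ (cns a v)

/-- Substitution of terms for the variables of a term. -/
def Tm.subst {n m : ℕ} (σ : Fin n → Tm m) : Tm n → Tm m
  | .var i => σ i
  | .zero => .zero
  | .succ t => .succ (t.subst σ)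
  | .add t s => .add (t.subst σ) (s.subst σ)
  | .mul t s => .mul (t.subst σ) (s.subst σ)

/-- The substitution `σ` in the scope of a quantifier. -/
def up {n m : ℕ} (σ : Fin n → Tm m) : Fin (n + 1) → Tm (m + 1) :=
  fun i => Fin.cases (.var 0) (fun j => (σ j).subst (fun l => .var l.succ)) i

/-- Substitution of terms for the free variables of a formula. -/
def Fm.subst : {n m : ℕ} → (Fin n → Tm m) → Fm n → Fm m
  | _, _, _, .bot => .bot
  | _, _, σ, .eq t s => .eq (t.subst σ) (s.subst σ)
  | _, _, σ, .and φ ψ => .and (φ.subst σ) (ψ.subst σ)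
  | _, _, σ, .or φ ψ => .or (φ.subst σ) (ψ.subst σ)
  | _, _, σ, .imp φ ψ => .imp (φ.subst σ) (ψ.subst σ)
  | _, _, σ, .all φ => .all (φ.subst (up σ))
  | _, _, σ, .ex φ => .ex (φ.subst (up σ))

/-- `φ(0, x_0, …, x_{n-1})`. -/
def atZero {n : ℕ} (φ : Fm (n + 1)) : Fm n :=
  φ.subst (fun i => Fin.cases .zero (fun j => .var j) i)

/-- `φ(S x_0, x_1, …, x_n)`. -/
def atSucc {n : ℕ} (φ : Fm (n + 1)) : Fm (n + 1) :=
  φ.subst (fun i => Fin.cases (.succ (.var 0)) (fun j => .var j.succ) i)

/-- The universal closure of a formula. -/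
def closure : (n : ℕ) → Fm n → Fm 0
  | 0, φ => φ
  | n + 1, φ => closure n (.all φ)

/-- The axioms of Peano arithmetic, which are also the axioms of Heyting arithmetic:
`∀ x, ¬ S x = 0`, `∀ x y, S x = S y → x = y`, `∀ x, x + 0 = x`, `∀ x y, x + S y = S (x + y)`,
`∀ x, x · 0 = 0`, `∀ x y, x · S y = x · y + x` and, for every formula `φ`, the universal closure of
`φ(0) ∧ (∀ x, φ(x) → φ(S x)) → ∀ x, φ(x)`. In the second, fourth and sixth axiom `x` is the
variable `x_1` and `y` the variable `x_0` of the quantifier-free part. -/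
inductive Ax : Fm 0 → Prop
  | succ_ne : Ax (.all (.imp (.eq (.succ (.var 0)) .zero) .bot))
  | succ_inj : Ax (.all (.all (.imp (.eq (.succ (.var 1)) (.succ (.var 0)))
      (.eq (.var 1) (.var 0)))))
  | add_zero : Ax (.all (.eq (.add (.var 0) .zero) (.var 0)))
  | add_succ : Ax (.all (.all (.eq (.add (.var 1) (.succ (.var 0)))
      (.succ (.add (.var 1) (.var 0))))))
  | mul_zero : Ax (.all (.eq (.mul (.var 0) .zero) .zero))
  | mul_succ : Ax (.all (.all (.eq (.mul (.var 1) (.succ (.var 0)))
      (.add (.mul (.var 1) (.var 0)) (.var 1)))))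
  | ind (n : ℕ) (φ : Fm (n + 1)) : Ax (closure n
      (.imp (.and (atZero φ) (.all (.imp φ (atSucc φ)))) (.all φ)))

/-- A classical structure is a model of Peano arithmetic. -/
def ModelsPA {M : Type} (A : Str M) : Prop :=
  ∀ φ : Fm 0, Ax φ → Sat A φ (fun i => i.elim0)

/-- Kripke models: a nonempty partially ordered set `K` of nodes; for every node `k` a classical
structure with domain `dom k`; for `k ≤ l` the domain of `k` is contained in that of `l`, and the
atomic formulas true in `k` for parameters from the domain of `k` are true in `l`. All domains are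
subsets of one type `U`. -/
structure KModel where
  K : Type
  [nonempty : Nonempty K]
  [order : PartialOrder K]
  U : Type
  dom : K → Set U
  str : (k : K) → Str (dom k)
  dom_mono : ∀ {k l : K}, k ≤ l → dom k ⊆ dom l
  atomic : ∀ {k l : K} (h : k ≤ l) {n : ℕ} (t s : Tm n) (v : Fin n → dom k),
    t.ev (str k) v = s.ev (str k) v →
      t.ev (str l) (fun i => Set.inclusion (dom_mono h) (v i)) =
        s.ev (str l) (fun i => Set.inclusion (dom_mono h) (v i))

attribute [instance] KModel.nonempty KModel.order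

/-- The forcing relation of a Kripke model. -/
def KModel.Forces (W : KModel) : {n : ℕ} → Fm n → (k : W.K) → (Fin n → W.dom k) → Prop
  | _, .bot, _, _ => False
  | _, .eq t s, k, v => t.ev (W.str k) v = s.ev (W.str k) v
  | _, .and φ ψ, k, v => W.Forces φ k v ∧ W.Forces ψ k v
  | _, .or φ ψ, k, v => W.Forces φ k v ∨ W.Forces ψ k v
  | _, .imp φ ψ, k, v => ∀ (l : W.K) (h : k ≤ l),
      W.Forces φ l (fun i => Set.inclusion (W.dom_mono h) (v i)) →
        W.Forces ψ l (fun i => Set.inclusion (W.dom_mono h) (v i))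
  | _, .all φ, k, v => ∀ (l : W.K) (h : k ≤ l) (a : W.dom l),
      W.Forces φ l (cns a (fun i => Set.inclusion (W.dom_mono h) (v i)))
  | _, .ex φ, k, v => ∃ a : W.dom k, W.Forces φ k (cns a v)

/-- Every node forces every axiom of Heyting arithmetic. -/
def KModel.ForcesHA (W : KModel) : Prop :=
  ∀ (k : W.K) (φ : Fm 0), Ax φ → W.Forces φ k (fun i => i.elim0)

end Pool.Agent.H872R3.KH
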