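import Pool.Agent.H872R3.KH.Rec

/-! Filters of sequences that are prime for recursively enumerable sets. -/

set_option autoImplicit false

namespace Pool.Agent.H872R3.KH

open Filter

/-- `F` depends only on the first `n` entries. -/
def Det (n : ℕ) (F : Filter X) : Prop :=
  ∀ A ∈ F, ∃ B ∈ F, B ⊆ A ∧ ∀ x ∈ B, ∀ y, Agree n x y → y ∈ B

/-- `F` is prime for domains of partial recursive functions of the first `n` entries. -/
def Prm (n : ℕ) (F : Filter X) : Prop :=
  ∀ g h : X → Part ℕ, Rec n g → Rec n h → (∀ᶠ x in F, (g x).Dom ∨ (h x).Dom) →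
    (∀ᶠ x in F, (g x).Dom) ∨ (∀ᶠ x in F, (h x).Dom)

theorem prime_ext (n : ℕ) (F : Filter X) (hdet : Det n F) (P : X → ℕ → Prop)
    (hP : ¬ ∃ g, Rec n g ∧ ∀ᶠ x in F, ∃ e ∈ g x, P x e) :
    ∃ G : Filter X, G ≤ F ∧ G.NeBot ∧ Det n G ∧ Prm n G ∧
      ¬ ∃ g, Rec n g ∧ ∀ᶠ x in G, ∃ e ∈ g x, P x e := by
  classical
  -- bad domains
  let Bad : (X → Part ℕ) → Prop := fun g => Rec n g ∧ ∃ h, Rec n h ∧
    ∀ᶠ x in F, (g x).Dom → ∃ e ∈ h x, P x e
  have bad_none : Bad (fun _ => Part.none) :=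
    ⟨Rec.none n, _, Rec.none n, Eventually.of_forall fun x hx => absurd hx id⟩
  have bad_merge : ∀ g₁ g₂, Bad g₁ → Bad g₂ → ∃ g, Bad g ∧
      ∀ x, (g x).Dom ↔ (g₁ x).Dom ∨ (g₂ x).Dom := by
    rintro g₁ g₂ ⟨r₁, h₁, s₁, t₁⟩ ⟨r₂, h₂, s₂, t₂⟩
    obtain ⟨k, hk, hk1, hk2, hk3⟩ := r₁.merge r₂
    obtain ⟨f₁, u₁, v₁⟩ := s₁
    obtain ⟨f₂, u₂, v₂⟩ := s₂
    obtain ⟨f, u, v⟩ := hk
    refine ⟨k, ⟨⟨f, u, v⟩, fun x => (f (cd n x)).bind fun i =>
      bif i == 0 then f₁ (cd n x) else f₂ (cd n x), ?_, ?_⟩, hk1⟩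
    · refine ⟨fun a => (f a).bind fun i => bif i == 0 then f₁ a else f₂ a, ?_, fun _ => rfl⟩
      refine u.bind ?_
      refine Partrec.cond ?_ (u₁.comp Computable.fst) (u₂.comp Computable.fst)
      exact (Primrec.beq.comp Primrec.snd (Primrec.const 0)).to_comp
    · filter_upwards [t₁, t₂] with x a₁ a₂ hd
      obtain ⟨i, hi⟩ := Part.dom_iff_mem.1 hd
      rw [v] at hi
      by_cases h0 : i = 0
      · subst h0
        have hd1 := hk2 x (by rw [v]; exact hi)
        obtain ⟨e, he, hPe⟩ := a₁ hd1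
        refine ⟨e, ?_, hPe⟩
        rw [v₁] at he
        exact Part.mem_bind_iff.2 ⟨0, hi, by simpa using he⟩
      · have hd2 := hk3 x i (by rw [v]; exact hi) h0
        obtain ⟨e, he, hPe⟩ := a₂ hd2
        refine ⟨e, ?_, hPe⟩
        rw [v₂] at he
        refine Part.mem_bind_iff.2 ⟨i, hi, ?_⟩
        have : (i == 0) = false := by simpa using h0
        rw [this]
        exact he
  -- the filter generated by `F` and the complements of the bad domains
  let G0 : Filter X :=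
    { sets := {A | ∃ g, Bad g ∧ ∀ᶠ x in F, ¬ (g x).Dom → x ∈ A}
      univ_sets := ⟨_, bad_none, Eventually.of_forall fun _ _ => trivial⟩
      sets_of_superset := by
        rintro A B ⟨g, hg, hA⟩ hAB
        exact ⟨g, hg, hA.mono fun x hx hd => hAB (hx hd)⟩
      inter_sets := by
        rintro A B ⟨g, hg, hA⟩ ⟨h, hh, hB⟩
        obtain ⟨k, hk, hk1⟩ := bad_merge g h hg hh
        refine ⟨k, hk, ?_⟩
        filter_upwards [hA, hB] with x hA hB hd
        rw [hk1, not_or] at hd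
        exact ⟨hA hd.1, hB hd.2⟩ }
  have hG0F : G0 ≤ F := by
    intro A hA
    exact ⟨_, bad_none, mem_of_superset hA fun x hx _ => hx⟩
  have hG0 : G0.NeBot := by
    refine ⟨fun h => hP ?_⟩
    have h1 : (∅ : Set X) ∈ G0 := by rw [h]; exact mem_bot
    obtain ⟨g, ⟨-, h, hh, hgh⟩, hA⟩ := h1
    refine ⟨h, hh, ?_⟩
    filter_upwards [hgh, hA] with x h1 h2
    apply h1
    by_contra h3
    exact (h2 h3).elim
  let 𝒰 : Ultrafilter X := Ultrafilter.of G0
  have hUG : (𝒰 : Filter X) ≤ G0 := Ultrafilter.of_le G0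
  let G : Filter X :=
    { sets := {A | ∃ g, Rec n g ∧ (∀ᶠ x in (𝒰 : Filter X), (g x).Dom) ∧
        ∀ᶠ x in F, (g x).Dom → x ∈ A}
      univ_sets := ⟨_, Rec.const n 0, Eventually.of_forall fun _ => trivial,
        Eventually.of_forall fun _ _ => trivial⟩
      sets_of_superset := by
        rintro A B ⟨g, hg, hU, hA⟩ hAB
        exact ⟨g, hg, hU, hA.mono fun x hx hd => hAB (hx hd)⟩
      inter_sets := by
        rintro A B ⟨g, hg, hU, hA⟩ ⟨h, hh, hV, hB⟩
        refine ⟨_, hg.map₂ hh (F := fun a _ => a) Computable.fst, ?_, ?_⟩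
        · filter_upwards [hU, hV] with x h1 h2
          obtain ⟨a, ha⟩ := Part.dom_iff_mem.1 h1
          obtain ⟨b, hb⟩ := Part.dom_iff_mem.1 h2
          refine Part.dom_iff_mem.2 ⟨a, Part.mem_bind_iff.2 ⟨a, ha, Part.mem_bind_iff.2
            ⟨b, hb, Part.mem_some a⟩⟩⟩
        · filter_upwards [hA, hB] with x h1 h2 h3
          obtain ⟨a, ha⟩ := Part.dom_iff_mem.1 h3
          rw [Part.mem_bind_iff] at ha
          obtain ⟨a', ha', hb⟩ := ha
          rw [Part.mem_bind_iff] at hb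
          obtain ⟨b, hb, -⟩ := hb
          exact ⟨h1 (Part.dom_iff_mem.2 ⟨_, ha'⟩), h2 (Part.dom_iff_mem.2 ⟨_, hb⟩)⟩ }
  have hGF : G ≤ F := by
    intro A hA
    exact ⟨_, Rec.const n 0, Eventually.of_forall fun _ => trivial,
      mem_of_superset hA fun x hx _ => hx⟩
  have hUGG : (𝒰 : Filter X) ≤ G := by
    rintro A ⟨g, hg, hU, hA⟩
    have h1 : ∀ᶠ x in (𝒰 : Filter X), (g x).Dom → x ∈ A := (hUG.trans hG0F) hA
    filter_upwards [h1, hU] with x h1 h2
    exact h1 h2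
  refine ⟨G, hGF, neBot_of_le hUGG, ?_, ?_, ?_⟩
  · rintro A ⟨g, hg, hU, hA⟩
    obtain ⟨B, hB, hBA, hBs⟩ := hdet _ hA
    refine ⟨{x | x ∈ B ∧ (g x).Dom}, ⟨g, hg, hU, ?_⟩, ?_, ?_⟩
    · exact mem_of_superset hB fun x hx hd => ⟨hx, hd⟩
    · rintro x ⟨hx, hd⟩
      exact hBA hx hd
    · rintro x ⟨hx, hd⟩ y hxy
      refine ⟨hBs x hx y hxy, ?_⟩
      rw [← hg.congr_agree hxy]
      exact hd
  · intro g h hg hh hgh
    have h1 : ∀ᶠ x in (𝒰 : Filter X), (g x).Dom ∨ (h x).Dom := hUGG hgh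
    rw [Ultrafilter.eventually_or] at h1
    rcases h1 with h1 | h1
    · exact Or.inl ⟨g, hg, h1, Eventually.of_forall fun _ hd => hd⟩
    · exact Or.inr ⟨h, hh, h1, Eventually.of_forall fun _ hd => hd⟩
  · rintro ⟨h, hh, hgh⟩
    obtain ⟨g, hg, hU, hA⟩ := hgh
    have hbad : Bad g := ⟨hg, h, hh, hA⟩
    have h1 : ∀ᶠ x in G0, ¬ (g x).Dom := ⟨g, hbad, Eventually.of_forall fun _ hd => hd⟩
    have h2 : ∀ᶠ x in (𝒰 : Filter X), ¬ (g x).Dom := hUG h1
    obtain ⟨x, hx, hx'⟩ := (hU.and h2).exists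
    exact hx' hx

/-- `g` is a recursive function of the first `n` entries which is defined on a set of `F`. -/
def Valid (n : ℕ) (F : Filter X) (g : X → Part ℕ) : Prop := Rec n g ∧ ∀ᶠ x in F, (g x).Dom

/-- a full set of representatives extending a given partial one -/
theorem exists_reps (n : ℕ) (F : Filter X) (D₀ : Set (X → Part ℕ))
    (h0 : ∀ g ∈ D₀, Valid n F g) (hinj : ∀ g ∈ D₀, ∀ h ∈ D₀, (∀ᶠ x in F, g x = h x) → g = h) :
    ∃ D, D₀ ⊆ D ∧ (∀ g ∈ D, Valid n F g) ∧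
      (∀ g, Valid n F g → ∃ h ∈ D, ∀ᶠ x in F, g x = h x) ∧
      (∀ g ∈ D, ∀ h ∈ D, (∀ᶠ x in F, g x = h x) → g = h) := by
  classical
  let s : Setoid (X → Part ℕ) :=
    { r := fun g h => ∀ᶠ x in F, g x = h x
      iseqv :=
        { refl := fun g => Eventually.of_forall fun _ => rfl
          symm := fun h => h.mono fun _ hx => hx.symm
          trans := fun h h' => by filter_upwards [h, h'] with x a b using a.trans b } }
  let c : (X → Part ℕ) → (X → Part ℕ) := fun g =>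
    if h : ∃ d ∈ D₀, ∀ᶠ x in F, g x = d x then h.choose else Quotient.out (Quotient.mk s g)
  have hc : ∀ g, ∀ᶠ x in F, g x = c g x := by
    intro g
    by_cases h : ∃ d ∈ D₀, ∀ᶠ x in F, g x = d x
    · simp only [c, dif_pos h]
      exact h.choose_spec.2
    · simp only [c, dif_neg h]
      have : s.r (Quotient.out (Quotient.mk s g)) g := Quotient.exact (Quotient.out_eq _)
      exact this.mono fun _ hx => hx.symm
  have hcc : ∀ g h, (∀ᶠ x in F, g x = h x) → c g = c h := by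
    intro g h hgh
    have hq : Quotient.mk s g = Quotient.mk s h := Quotient.sound hgh
    by_cases h1 : ∃ d ∈ D₀, ∀ᶠ x in F, g x = d x
    · have h2 : ∃ d ∈ D₀, ∀ᶠ x in F, h x = d x := by
        obtain ⟨d, hd, hgd⟩ := h1
        refine ⟨d, hd, ?_⟩
        filter_upwards [hgh, hgd] with x a b using a.symm.trans b
      simp only [c, dif_pos h1, dif_pos h2]
      apply hinj _ h1.choose_spec.1 _ h2.choose_spec.1
      filter_upwards [hgh, h1.choose_spec.2, h2.choose_spec.2] with x a b e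
      exact b.symm.trans (a.trans e)
    · have h2 : ¬ ∃ d ∈ D₀, ∀ᶠ x in F, h x = d x := by
        rintro ⟨d, hd, hgd⟩
        refine h1 ⟨d, hd, ?_⟩
        filter_upwards [hgh, hgd] with x a b using a.trans b
      simp only [c, dif_neg h1, dif_neg h2, hq]
  -- classes with a valid member need a valid representative
  let v : (X → Part ℕ) → (X → Part ℕ) := fun g =>
    if h : ∃ d, Valid n F d ∧ (∀ᶠ x in F, g x = d x) ∧ (g ∈ D₀ → d = g) then
      h.choose else g
  -- choose for every class a valid member, the given one if there is one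
  let w : (X → Part ℕ) → (X → Part ℕ) := fun g => v (c g)
  have hv : ∀ g, Valid n F g → Valid n F (w g) ∧ ∀ᶠ x in F, g x = w g x := by
    intro g hg
    have hex : ∃ d, Valid n F d ∧ (∀ᶠ x in F, c g x = d x) ∧ (c g ∈ D₀ → d = c g) := by
      by_cases h1 : c g ∈ D₀
      · exact ⟨c g, h0 _ h1, Eventually.of_forall fun _ => rfl, fun _ => rfl⟩
      · exact ⟨g, hg, (hc g).mono fun _ hx => hx.symm, fun h => absurd h h1⟩
    have hw : w g = hex.choose := by
      simp only [w, v, dif_pos hex]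
    rw [hw]
    refine ⟨hex.choose_spec.1, ?_⟩
    filter_upwards [hc g, hex.choose_spec.2.1] with x a b using a.trans b
  refine ⟨{d | ∃ g, Valid n F g ∧ d = w g}, ?_, ?_, ?_, ?_⟩
  · intro d hd
    refine ⟨d, h0 d hd, ?_⟩
    have h1 : ∃ d' ∈ D₀, ∀ᶠ x in F, d x = d' x := ⟨d, hd, Eventually.of_forall fun _ => rfl⟩
    have h2 : c d = d := by
      simp only [c, dif_pos h1]
      exact (hinj _ hd _ h1.choose_spec.1 h1.choose_spec.2).symm
    have hex : ∃ d', Valid n F d' ∧ (∀ᶠ x in F, d x = d' x) ∧ (d ∈ D₀ → d' = d) :=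
      ⟨d, h0 d hd, Eventually.of_forall fun _ => rfl, fun _ => rfl⟩
    show d = v (c d)
    rw [h2]
    simp only [v, dif_pos hex]
    exact (hex.choose_spec.2.2 hd).symm
  · rintro d ⟨g, hg, rfl⟩
    exact (hv g hg).1
  · intro g hg
    exact ⟨w g, ⟨g, hg, rfl⟩, (hv g hg).2⟩
  · rintro d ⟨g, hg, rfl⟩ d' ⟨g', hg', rfl⟩ h
    have h1 : ∀ᶠ x in F, g x = g' x := by
      filter_upwards [(hv g hg).2, (hv g' hg').2, h] with x a b e
      exact a.trans (e.trans b.symm)
    show v (c g) = v (c g')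
    rw [hcc g g' h1]

end Pool.Agent.H872R3.KH
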