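import Pool.Agent.H872R3.KH.Truth

/-! The Kripke model forces the axioms of Heyting arithmetic. -/

set_option autoImplicit false

namespace Pool.Agent.H872R3.KH

open Filter

theorem Tm.ev_subst {M : Type} (A : Str M) {n m : ℕ} (σ : Fin n → Tm m) (v : Fin m → M)
    (t : Tm n) : (t.subst σ).ev A v = t.ev A (fun i => (σ i).ev A v) := by
  induction t with
  | var i => rfl
  | zero => rfl
  | succ t ih => simp only [Tm.subst, Tm.ev, ih]
  | add t s iht ihs => simp only [Tm.subst, Tm.ev, iht, ihs]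
  | mul t s iht ihs => simp only [Tm.subst, Tm.ev, iht, ihs]

theorem up_ev {M : Type} (A : Str M) {n m : ℕ} (σ : Fin n → Tm m) (a : M) (v : Fin m → M) :
    (fun i => (up σ i).ev A (cns a v)) = cns a (fun i => (σ i).ev A v) := by
  funext i
  refine Fin.cases rfl (fun j => ?_) i
  show ((σ j).subst (fun l => Tm.var l.succ)).ev A (cns a v) = (σ j).ev A v
  rw [Tm.ev_subst]
  rfl

theorem real_subst {n : ℕ} (φ : Fm n) : ∀ {m : ℕ} (σ : Fin n → Tm m) (e : ℕ) (v : Fin m → ℕ),
    real (φ.subst σ) e v ↔ real φ e (fun i => (σ i).ev stdN v) := by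
  induction φ with
  | bot => intro m σ e v; rfl
  | eq t s =>
    intro m σ e v
    simp only [Fm.subst, real, Tm.ev_subst]
  | and φ ψ ihφ ihψ =>
    intro m σ e v
    simp only [Fm.subst, real, ihφ, ihψ]
  | or φ ψ ihφ ihψ =>
    intro m σ e v
    simp only [Fm.subst, real, ihφ, ihψ]
  | imp φ ψ ihφ ihψ =>
    intro m σ e v
    simp only [Fm.subst, real, ihφ, ihψ]
  | all φ ih =>
    intro m σ e v
    simp only [Fm.subst, real, ih, up_ev]
  | ex φ ih =>
    intro m σ e v
    simp only [Fm.subst, real, ih, up_ev]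

theorem sat_subst {M : Type} (A : Str M) {n : ℕ} (φ : Fm n) :
    ∀ {m : ℕ} (σ : Fin n → Tm m) (v : Fin m → M),
    Sat A (φ.subst σ) v ↔ Sat A φ (fun i => (σ i).ev A v) := by
  induction φ with
  | bot => intro m σ v; rfl
  | eq t s =>
    intro m σ v
    simp only [Fm.subst, Sat, Tm.ev_subst]
  | and φ ψ ihφ ihψ =>
    intro m σ v
    simp only [Fm.subst, Sat, ihφ, ihψ]
  | or φ ψ ihφ ihψ =>
    intro m σ v
    simp only [Fm.subst, Sat, ihφ, ihψ]
  | imp φ ψ ihφ ihψ =>
    intro m σ v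
    simp only [Fm.subst, Sat, ihφ, ihψ]
  | all φ ih =>
    intro m σ v
    simp only [Fm.subst, Sat, ih, up_ev]
  | ex φ ih =>
    intro m σ v
    simp only [Fm.subst, Sat, ih, up_ev]

theorem zero_fun {M : Type} (A : Str M) {n : ℕ} (v : Fin n → M) :
    (fun i : Fin (n + 1) => (Fin.cases (motive := fun _ => Tm n) .zero (fun j => .var j) i).ev A v)
      = cns A.zero v := by
  funext i
  refine Fin.cases rfl (fun j => rfl) i

theorem succ_fun {M : Type} (A : Str M) {n : ℕ} (v : Fin (n + 1) → M) :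
    (fun i : Fin (n + 1) => (Fin.cases (motive := fun _ => Tm (n + 1)) (.succ (.var 0))
      (fun j => .var j.succ) i).ev A v) = cns (A.succ (v 0)) (fun j => v j.succ) := by
  funext i
  refine Fin.cases rfl (fun j => rfl) i

theorem real_atZero {n : ℕ} (φ : Fm (n + 1)) (e : ℕ) (v : Fin n → ℕ) :
    real (atZero φ) e v ↔ real φ e (cns 0 v) := by
  unfold atZero
  rw [real_subst, zero_fun]
  rfl

theorem real_atSucc {n : ℕ} (φ : Fm (n + 1)) (e m : ℕ) (v : Fin n → ℕ) :
    real (atSucc φ) e (cns m v) ↔ real φ e (cns (m + 1) v) := by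
  unfold atSucc
  rw [real_subst, succ_fun]
  rfl

theorem sat_atZero {M : Type} (A : Str M) {n : ℕ} (φ : Fm (n + 1)) (v : Fin n → M) :
    Sat A (atZero φ) v ↔ Sat A φ (cns A.zero v) := by
  unfold atZero
  rw [sat_subst, zero_fun]

theorem sat_atSucc {M : Type} (A : Str M) {n : ℕ} (φ : Fm (n + 1)) (a : M) (v : Fin n → M) :
    Sat A (atSucc φ) (cns a v) ↔ Sat A φ (cns (A.succ a) v) := by
  unfold atSucc
  rw [sat_subst, succ_fun]
  rfl

/-- iteration of a realizer of the induction step -/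
def itr (p m : ℕ) : Part ℕ :=
  Nat.rec (Part.some p.unpair.1)
    (fun y IH => IH.bind fun w => (appl p.unpair.2 y).bind fun e => appl e w) m

theorem partrec_itr : Partrec₂ itr := by
  have h : Partrec (fun a : ℕ × ℕ => (a.2).rec (motive := fun _ => Part ℕ)
      (Part.some a.1.unpair.1)
      (fun y IH => IH.bind fun w => (appl a.1.unpair.2 y).bind fun e => appl e w)) := by
    refine Partrec.nat_rec (f := fun a : ℕ × ℕ => a.2)
      (g := fun a : ℕ × ℕ => Part.some a.1.unpair.1)
      (h := fun (a : ℕ × ℕ) (b : ℕ × ℕ) => (appl a.1.unpair.2 b.1).bind fun e => appl e b.2)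
      Computable.snd ?_ ?_
    · exact (Computable.fst.comp (Computable.unpair.comp Computable.fst)).partrec
    · refine Partrec.bind (f := fun c : (ℕ × ℕ) × (ℕ × ℕ) => appl c.1.1.unpair.2 c.2.1)
        (g := fun (c : (ℕ × ℕ) × (ℕ × ℕ)) (e : ℕ) => appl e c.2.2) ?_ ?_
      · exact partrec_appl.comp
          (Computable.snd.comp (Computable.unpair.comp (Computable.fst.comp Computable.fst)))
          (Computable.fst.comp Computable.snd)
      · exact partrec_appl.comp Computable.snd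
          (Computable.snd.comp (Computable.snd.comp Computable.fst))
  exact h

theorem real_ind : ∃ s : ℕ → ℕ, Computable s ∧ ∀ {n : ℕ} (φ : Fm (n + 1)) (a b : ℕ)
    (v : Fin n → ℕ), real (atZero φ) a v → real (.all (.imp φ (atSucc φ))) b v →
      real (.all φ) (s (Nat.pair a b)) v := by
  obtain ⟨s, hs, hs2⟩ := smn partrec_itr
  refine ⟨s, hs, fun {n} φ a b v ha hb m => ?_⟩
  rw [hs2]
  induction m with
  | zero =>
    refine ⟨a, ?_, ?_⟩
    · show a ∈ Part.some (Nat.pair a b).unpair.1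
      rw [Nat.unpair_pair]
      exact Part.mem_some _
    · exact (real_atZero φ a v).1 ha
  | succ m ih =>
    obtain ⟨w, hw, hw2⟩ := ih
    obtain ⟨e, he, he2⟩ := hb m
    obtain ⟨w', hw', hw2'⟩ := he2 w hw2
    refine ⟨w', ?_, (real_atSucc φ w' m v).1 hw2'⟩
    show w' ∈ (itr (Nat.pair a b) m).bind fun w =>
      (appl (Nat.pair a b).unpair.2 m).bind fun e => appl e w
    rw [Nat.unpair_pair]
    exact Part.mem_bind_iff.2 ⟨w, hw, Part.mem_bind_iff.2 ⟨e, he, hw'⟩⟩

theorem forces_closure {n : ℕ} (φ : Fm n) (h : ∀ (k : Node) (u : Fin n → k.D),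
    model.Forces φ k u) (k : Node) (u : Fin 0 → k.D) : model.Forces (closure n φ) k u := by
  induction n with
  | zero => exact h k u
  | succ n ih => exact ih (.all φ) fun k u l hkl a => h l _

theorem forces_ind {n : ℕ} (φ : Fm (n + 1)) (k : Node) (u : Fin n → k.D) :
    model.Forces (.imp (.and (atZero φ) (.all (.imp φ (atSucc φ)))) (.all φ)) k u := by
  rintro l hkl ⟨h0, h1⟩
  obtain ⟨s, hs, hs2⟩ := real_ind
  obtain ⟨g0, r0, e0⟩ := (truth _ l _).1 h0
  obtain ⟨g1, r1, e1⟩ := (truth _ l _).1 h1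
  refine (truth _ l _).2 ⟨_, (r0.map₂ r1 Primrec₂.natPair.to_comp).map hs, ?_⟩
  filter_upwards [e0, e1] with _ ⟨a, ha, ha2⟩ ⟨b, hb, hb2⟩
  exact ⟨_, Part.mem_map _ (Part.mem_bind_iff.2 ⟨a, ha, Part.mem_bind_iff.2
    ⟨b, hb, Part.mem_some _⟩⟩), hs2 φ a b _ ha2 hb2⟩

theorem forces_eq {n : ℕ} (t s : Tm n) (h : ∀ v : Fin n → ℕ, t.ev stdN v = s.ev stdN v)
    (k : Node) (u : Fin n → k.D) : model.Forces (.eq t s) k u :=
  (eq_iff k u t s).2 (Eventually.of_forall fun x => h _)

theorem forcesHA : model.ForcesHA := by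
  intro k φ hφ
  cases hφ with
  | succ_ne =>
    intro l hkl a l' hl' he
    have := Node.ne l'
    obtain ⟨x, hx⟩ := ((eq_iff l' _ _ _).1 he).exists
    simp [Tm.ev, stdN] at hx
  | succ_inj =>
    intro l hkl a l' hl' b m hm he
    refine (eq_iff m _ _ _).2 ?_
    filter_upwards [(eq_iff m _ _ _).1 he] with x hx
    exact Nat.succ_injective hx
  | add_zero =>
    intro l hkl a
    exact forces_eq _ _ (fun v => by simp [Tm.ev, stdN]) l _
  | add_succ =>
    intro l hkl a l' hl' b
    exact forces_eq _ _ (fun v => by simp only [Tm.ev, stdN, Nat.succ_eq_add_one]; ring) l' _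
  | mul_zero =>
    intro l hkl a
    exact forces_eq _ _ (fun v => by simp [Tm.ev, stdN]) l _
  | mul_succ =>
    intro l hkl a l' hl' b
    exact forces_eq _ _ (fun v => by simp only [Tm.ev, stdN, Nat.succ_eq_add_one]; ring) l' _
  | ind n φ => exact forces_closure _ (fun k u => forces_ind φ k u) k _

end Pool.Agent.H872R3.KH
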