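import Pool.Agent.H872R3.KH.Filt

/-! The nodes of the Kripke model. -/

set_option autoImplicit false

namespace Pool.Agent.H872R3.KH

open Filter

/-- Nodes: a filter `F` depending on the first `n` entries, prime for recursively enumerable sets,
for which the first entry is nonstandard, and a set `D` of representatives of the recursive
functions of the first `n` entries modulo `F`. -/
@[ext]
structure Node where
  n : ℕ
  F : Filter X
  D : Set (X → Part ℕ)
  ne : F.NeBot
  det : Det n F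
  prm : Prm n F
  pos : 0 < n
  big : ∀ m : ℕ, ∀ᶠ x in F, m < x 0
  valid : ∀ g ∈ D, Valid n F g
  rep : ∀ g, Valid n F g → ∃ h ∈ D, ∀ᶠ x in F, g x = h x
  uniq : ∀ g ∈ D, ∀ h ∈ D, (∀ᶠ x in F, g x = h x) → g = h

attribute [instance] Node.ne

instance : PartialOrder Node where
  le k l := k.n ≤ l.n ∧ l.F ≤ k.F ∧ k.D ⊆ l.D
  le_refl k := ⟨le_rfl, le_rfl, subset_rfl⟩
  le_trans k l m h h' := ⟨h.1.trans h'.1, h'.2.1.trans h.2.1, h.2.2.trans h'.2.2⟩
  le_antisymm k l h h' := by
    ext1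
    · exact le_antisymm h.1 h'.1
    · exact le_antisymm h'.2.1 h.2.1
    · exact subset_antisymm h.2.2 h'.2.2

theorem Node.le_iff {k l : Node} : k ≤ l ↔ k.n ≤ l.n ∧ l.F ≤ k.F ∧ k.D ⊆ l.D := Iff.rfl

theorem Valid.mono {k l : Node} (h : k ≤ l) {g : X → Part ℕ} (hg : Valid k.n k.F g) :
    Valid l.n l.F g := ⟨hg.1.mono h.1, h.2.1 hg.2⟩

/-- the representative of a valid function -/
noncomputable def Node.mk' (k : Node) (g : X → Part ℕ) (hg : Valid k.n k.F g) : k.D :=
  ⟨(k.rep g hg).choose, (k.rep g hg).choose_spec.1⟩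

theorem Node.mk'_spec (k : Node) (g : X → Part ℕ) (hg : Valid k.n k.F g) :
    ∀ᶠ x in k.F, g x = (k.mk' g hg).1 x := (k.rep g hg).choose_spec.2

theorem valid_const (k : Node) (c : ℕ) : Valid k.n k.F (fun _ => Part.some c) :=
  ⟨Rec.const _ _, Eventually.of_forall fun _ => trivial⟩

theorem Valid.map {k : Node} {g : X → Part ℕ} (hg : Valid k.n k.F g) {F : ℕ → ℕ}
    (hF : Computable F) : Valid k.n k.F (fun x => (g x).map F) :=
  ⟨hg.1.map hF, hg.2.mono fun _ hx => hx⟩

theorem Valid.map₂ {k : Node} {g h : X → Part ℕ} (hg : Valid k.n k.F g) (hh : Valid k.n k.F h)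
    {F : ℕ → ℕ → ℕ} (hF : Computable₂ F) :
    Valid k.n k.F (fun x => (g x).bind fun a => (h x).bind fun b => Part.some (F a b)) := by
  refine ⟨hg.1.map₂ hh.1 hF, ?_⟩
  filter_upwards [hg.2, hh.2] with x h1 h2
  obtain ⟨a, ha⟩ := Part.dom_iff_mem.1 h1
  obtain ⟨b, hb⟩ := Part.dom_iff_mem.1 h2
  exact Part.dom_iff_mem.2 ⟨F a b, Part.mem_bind_iff.2 ⟨a, ha, Part.mem_bind_iff.2
    ⟨b, hb, Part.mem_some _⟩⟩⟩

theorem computable_add : Computable₂ (fun a b : ℕ => a + b) := Primrec.nat_add.to_comp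
theorem computable_mul : Computable₂ (fun a b : ℕ => a * b) := Primrec.nat_mul.to_comp

/-- the structure of a node -/
noncomputable def Node.str (k : Node) : Str k.D where
  zero := k.mk' _ (valid_const k 0)
  succ g := k.mk' _ ((k.valid g.1 g.2).map Computable.succ)
  add g h := k.mk' _ ((k.valid g.1 g.2).map₂ (k.valid h.1 h.2) computable_add)
  mul g h := k.mk' _ ((k.valid g.1 g.2).map₂ (k.valid h.1 h.2) computable_mul)

open Classical in
/-- the value of a function at `x` (`0` if undefined) -/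
noncomputable def vl (g : X → Part ℕ) (x : X) : ℕ := if h : (g x).Dom then (g x).get h else 0

theorem vl_spec {g : X → Part ℕ} {x : X} (h : (g x).Dom) : g x = Part.some (vl g x) := by
  unfold vl
  rw [dif_pos h]
  exact (Part.some_get h).symm

theorem vl_of_mem {g : X → Part ℕ} {x : X} {a : ℕ} (h : a ∈ g x) : vl g x = a := by
  have h1 := vl_spec (Part.dom_iff_mem.2 ⟨a, h⟩)
  rw [h1] at h
  exact (Part.mem_some_iff.1 h).symm

theorem vl_congr {g h : X → Part ℕ} {x : X} (e : g x = h x) : vl g x = vl h x := by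
  unfold vl; rw [e]

/-- the standard structure -/
def stdN : Str ℕ := ⟨0, Nat.succ, (· + ·), (· * ·)⟩

/-- the values of an assignment at `x` -/
noncomputable def vls {D : Set (X → Part ℕ)} {m : ℕ} (u : Fin m → D) (x : X) : Fin m → ℕ :=
  fun i => vl (u i).1 x

theorem vls_cns {D : Set (X → Part ℕ)} {m : ℕ} (a : D) (u : Fin m → D) (x : X) :
    vls (cns a u) x = cns (vl a.1 x) (vls u x) := by
  funext i
  refine Fin.cases ?_ (fun j => ?_) i <;> rfl

theorem ev_spec (k : Node) {m : ℕ} (u : Fin m → k.D) (t : Tm m) :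
    ∀ᶠ x in k.F, (t.ev k.str u).1 x = Part.some (t.ev stdN (vls u x)) := by
  induction t with
  | var i =>
    filter_upwards [(k.valid _ (u i).2).2] with x hx
    exact vl_spec hx
  | zero =>
    filter_upwards [k.mk'_spec _ (valid_const k 0)] with x hx
    exact hx.symm
  | succ t ih =>
    have h := k.mk'_spec _ ((k.valid (t.ev k.str u).1 (t.ev k.str u).2).map Computable.succ)
    filter_upwards [ih, h] with x h1 h2
    show (k.str.succ (t.ev k.str u)).1 x = _
    refine Eq.trans h2.symm ?_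
    rw [h1]
    rfl
  | add t s iht ihs =>
    have h := k.mk'_spec _ ((k.valid (t.ev k.str u).1 (t.ev k.str u).2).map₂
      (k.valid (s.ev k.str u).1 (s.ev k.str u).2) computable_add)
    filter_upwards [iht, ihs, h] with x h1 h1' h2
    show (k.str.add (t.ev k.str u) (s.ev k.str u)).1 x = _
    refine Eq.trans h2.symm ?_
    rw [h1, h1']
    simp [Tm.ev, stdN]
  | mul t s iht ihs =>
    have h := k.mk'_spec _ ((k.valid (t.ev k.str u).1 (t.ev k.str u).2).map₂
      (k.valid (s.ev k.str u).1 (s.ev k.str u).2) computable_mul)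
    filter_upwards [iht, ihs, h] with x h1 h1' h2
    show (k.str.mul (t.ev k.str u) (s.ev k.str u)).1 x = _
    refine Eq.trans h2.symm ?_
    rw [h1, h1']
    simp [Tm.ev, stdN]

theorem eq_iff (k : Node) {m : ℕ} (u : Fin m → k.D) (t s : Tm m) :
    t.ev k.str u = s.ev k.str u ↔ ∀ᶠ x in k.F, t.ev stdN (vls u x) = s.ev stdN (vls u x) := by
  constructor
  · intro h
    filter_upwards [ev_spec k u t, ev_spec k u s] with x h1 h2
    rw [h, h2] at h1
    exact (Part.some_inj.1 h1).symm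
  · intro h
    apply Subtype.ext
    apply k.uniq _ (t.ev k.str u).2 _ (s.ev k.str u).2
    filter_upwards [ev_spec k u t, ev_spec k u s, h] with x h1 h2 h3
    rw [h1, h2, h3]

theorem vls_incl {k l : Node} (h : k.D ⊆ l.D) {m : ℕ} (u : Fin m → k.D) (x : X) :
    vls (fun i => Set.inclusion h (u i)) x = vls u x := rfl

/-- extension of nodes -/
theorem Node.extend (k : Node) (F₁ : Filter X) (hF : F₁ ≤ k.F) (hdet : Det (k.n + 1) F₁)
    (P : X → ℕ → Prop) (hP : ¬ ∃ g, Rec (k.n + 1) g ∧ ∀ᶠ x in F₁, ∃ e ∈ g x, P x e) :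
    ∃ l : Node, k ≤ l ∧ l.n = k.n + 1 ∧ l.F ≤ F₁ ∧
      ¬ ∃ g, Rec (k.n + 1) g ∧ ∀ᶠ x in l.F, ∃ e ∈ g x, P x e := by
  obtain ⟨G, hG1, hG2, hG3, hG4, hG5⟩ := prime_ext (k.n + 1) F₁ hdet P hP
  have hGk : G ≤ k.F := hG1.trans hF
  have hval : ∀ g ∈ k.D, Valid (k.n + 1) G g := fun g hg =>
    ⟨(k.valid g hg).1.succ, hGk (k.valid g hg).2⟩
  have hinj : ∀ g ∈ k.D, ∀ h ∈ k.D, (∀ᶠ x in G, g x = h x) → g = h := by
    intro g hg h hh hgh
    apply k.uniq g hg h hh
    obtain ⟨rg, dg⟩ := k.valid g hg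
    obtain ⟨rh, dh⟩ := k.valid h hh
    -- the tests for equality and inequality
    have r := rg.map₂ rh (F := fun a b => Nat.pair a b) Primrec₂.natPair.to_comp
    have c1 : Computable (fun c : ℕ => decide (c.unpair.1 = c.unpair.2)) :=
      (Primrec.eq.comp (Primrec.fst.comp Primrec.unpair)
        (Primrec.snd.comp Primrec.unpair)).decide.to_comp
    have c2 : Computable (fun c : ℕ => !decide (c.unpair.1 = c.unpair.2)) :=
      (Primrec.not.to_comp).comp c1
    obtain ⟨k1, hk1, hk1'⟩ := r.test c1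
    obtain ⟨k2, hk2, hk2'⟩ := r.test c2
    have key : ∀ᶠ x in k.F, (k1 x).Dom ∨ (k2 x).Dom := by
      filter_upwards [dg, dh] with x h1 h2
      obtain ⟨a, ha⟩ := Part.dom_iff_mem.1 h1
      obtain ⟨b, hb⟩ := Part.dom_iff_mem.1 h2
      have hm : Nat.pair a b ∈ (g x).bind fun a => (h x).bind fun b => Part.some (Nat.pair a b) :=
        Part.mem_bind_iff.2 ⟨a, ha, Part.mem_bind_iff.2 ⟨b, hb, Part.mem_some _⟩⟩
      by_cases hab : a = b
      · left
        refine Part.dom_iff_mem.2 ⟨_, (hk1' x _).2 ⟨hm, ?_⟩⟩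
        simpa using hab
      · right
        refine Part.dom_iff_mem.2 ⟨_, (hk2' x _).2 ⟨hm, ?_⟩⟩
        simpa using hab
    rcases k.prm k1 k2 hk1 hk2 key with h1 | h1
    · filter_upwards [h1] with x hx
      obtain ⟨c, hc⟩ := Part.dom_iff_mem.1 hx
      obtain ⟨hc1, hc2⟩ := (hk1' x c).1 hc
      rw [Part.mem_bind_iff] at hc1
      obtain ⟨a, ha, hc1⟩ := hc1
      rw [Part.mem_bind_iff] at hc1
      obtain ⟨b, hb, hc1⟩ := hc1
      rw [Part.mem_some_iff] at hc1
      subst hc1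
      have hab : a = b := by simpa using hc2
      subst hab
      rw [Part.eq_some_iff.2 ha, Part.eq_some_iff.2 hb]
    · exfalso
      have h2 : ∀ᶠ x in G, False := by
        filter_upwards [hGk h1, hgh] with x hx hx'
        obtain ⟨c, hc⟩ := Part.dom_iff_mem.1 hx
        obtain ⟨hc1, hc2⟩ := (hk2' x c).1 hc
        rw [Part.mem_bind_iff] at hc1
        obtain ⟨a, ha, hc1⟩ := hc1
        rw [Part.mem_bind_iff] at hc1
        obtain ⟨b, hb, hc1⟩ := hc1
        rw [Part.mem_some_iff] at hc1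
        subst hc1
        rw [hx'] at ha
        have := Part.mem_unique ha hb
        subst this
        simp at hc2
      exact h2.exists.elim fun _ h => h
  obtain ⟨D, hD0, hD1, hD2, hD3⟩ := exists_reps (k.n + 1) G k.D hval hinj
  exact ⟨⟨k.n + 1, G, D, hG2, hG3, hG4, Nat.succ_pos _, fun m => hGk (k.big m), hD1, hD2, hD3⟩,
    ⟨Nat.le_succ _, hGk, hD0⟩, rfl, hG1, hG5⟩

/-- there are nodes -/
theorem exists_node : Nonempty Node := by
  let F₀ : Filter X := comap (fun x : X => x 0) atTop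
  have hne : F₀.NeBot := by
    apply comap_neBot
    intro t ht
    obtain ⟨a, ha⟩ := (atTop : Filter ℕ).nonempty_of_mem ht
    exact ⟨fun _ => a, ha⟩
  have hdet : Det 1 F₀ := by
    intro A hA
    obtain ⟨t, ht, htA⟩ := mem_comap.1 hA
    refine ⟨(fun x : X => x 0) ⁻¹' t, preimage_mem_comap ht, htA, ?_⟩
    intro x hx y hxy
    show y 0 ∈ t
    rw [← hxy 0 (by omega)]
    exact hx
  obtain ⟨G, hG1, hG2, hG3, hG4, -⟩ := prime_ext 1 F₀ hdet (fun _ _ => False) (by
    rintro ⟨g, -, hg⟩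
    obtain ⟨x, e, -, he⟩ := hg.exists
    exact he)
  obtain ⟨D, -, hD1, hD2, hD3⟩ := exists_reps 1 G ∅ (by simp) (by simp)
  refine ⟨⟨1, G, D, hG2, hG3, hG4, Nat.one_pos, fun m => hG1 ?_, hD1, hD2, hD3⟩⟩
  exact preimage_mem_comap (Ioi_mem_atTop m)

/-- the Kripke model -/
noncomputable def model : KModel :=
  { K := Node
    nonempty := exists_node
    U := X → Part ℕ
    dom := Node.D
    str := Node.str
    dom_mono := fun {k l} h => (Node.le_iff.1 h).2.2
    atomic := by
      intro k l h n t s v e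
      rw [eq_iff] at e ⊢
      exact (Node.le_iff.1 h).2.1 e }

end Pool.Agent.H872R3.KH
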