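import Pool.Agent.H872R3.KH.Theta

/-! No node of the Kripke model is a model of Peano arithmetic. -/

set_option autoImplicit false

namespace Pool.Agent.H872R3.KH

open Filter

/-- `x_i < x_j` -/
def ltV {n : ℕ} (i j : Fin n) : Fm n :=
  .ex (.eq (.add (.var i.succ) (.succ (.var 0))) (.var j.succ))

theorem sat_ltV (k : Node) {n : ℕ} (u : Fin n → k.D) (i j : Fin n) :
    Sat k.str (ltV i j) u ↔ ∀ᶠ x in k.F, vl (u i).1 x < vl (u j).1 x := by
  change (∃ a : k.D, (Tm.add (.var i.succ) (.succ (.var 0))).ev k.str (cns a u) =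
    (Tm.var j.succ).ev k.str (cns a u)) ↔ _
  constructor
  · rintro ⟨a, ha⟩
    filter_upwards [(eq_iff k (cns a u) _ _).1 ha] with x hx
    change vl (u i).1 x + (vl a.1 x + 1) = vl (u j).1 x at hx
    omega
  · intro h
    have v1 := (k.valid (u i).1 (u i).2)
    have v2 := (k.valid (u j).1 (u j).2)
    have hs : Computable₂ (fun a b : ℕ => b - a - 1) :=
      (Primrec.nat_sub.comp (Primrec.nat_sub.comp Primrec.snd Primrec.fst)
        (Primrec.const 1)).to_comp
    have v3 := v1.map₂ v2 hs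
    refine ⟨k.mk' _ v3, (eq_iff k _ _ _).2 ?_⟩
    filter_upwards [h, v1.2, v2.2, k.mk'_spec _ v3] with x hx d1 d2 hx'
    have e : vl (k.mk' _ v3).1 x = vl (u j).1 x - vl (u i).1 x - 1 := by
      apply vl_of_mem
      rw [← hx']
      refine Part.mem_bind_iff.2 ⟨vl (u i).1 x, ?_, Part.mem_bind_iff.2 ⟨vl (u j).1 x, ?_,
        Part.mem_some _⟩⟩
      · rw [vl_spec d1]; exact Part.mem_some _
      · rw [vl_spec d2]; exact Part.mem_some _
    show vl (u i).1 x + (vl (k.mk' _ v3).1 x + 1) = vl (u j).1 x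
    rw [e]
    omega

theorem vl_mem {k : Node} (a : k.D) : ∀ᶠ x in k.F, vl a.1 x ∈ a.1 x := by
  filter_upwards [(k.valid a.1 a.2).2] with x hx
  rw [vl_spec hx]
  exact Part.mem_some _

/-- a node is closed under computable functions of two variables -/
theorem exists_map₂ (k : Node) (a b : k.D) {f : ℕ → ℕ → ℕ} (hf : Computable₂ f) :
    ∃ c : k.D, ∀ᶠ x in k.F, vl c.1 x = f (vl a.1 x) (vl b.1 x) := by
  have v3 := (k.valid a.1 a.2).map₂ (k.valid b.1 b.2) hf
  refine ⟨k.mk' _ v3, ?_⟩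
  filter_upwards [vl_mem a, vl_mem b, k.mk'_spec _ v3] with x h1 h2 h3
  apply vl_of_mem
  rw [← h3]
  exact Part.mem_bind_iff.2 ⟨_, h1, Part.mem_bind_iff.2 ⟨_, h2, Part.mem_some _⟩⟩

/-- primeness for decidable alternatives -/
theorem alt (k : Node) (a b : k.D) {p q : ℕ → ℕ → Bool} (hp : Computable₂ p) (hq : Computable₂ q)
    (h : ∀ᶠ x in k.F, p (vl a.1 x) (vl b.1 x) = true ∨ q (vl a.1 x) (vl b.1 x) = true) :
    (∀ᶠ x in k.F, p (vl a.1 x) (vl b.1 x) = true) ∨
      (∀ᶠ x in k.F, q (vl a.1 x) (vl b.1 x) = true) := by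
  have r := ((k.valid a.1 a.2).map₂ (k.valid b.1 b.2) (F := fun a b => Nat.pair a b)
    Primrec₂.natPair.to_comp).1
  have c : ∀ {p : ℕ → ℕ → Bool}, Computable₂ p → Computable (fun c : ℕ => p c.unpair.1 c.unpair.2) :=
    fun hp => hp.comp (Computable.fst.comp Computable.unpair)
      (Computable.snd.comp Computable.unpair)
  obtain ⟨g1, h1, h1'⟩ := r.test (c hp)
  obtain ⟨g2, h2, h2'⟩ := r.test (c hq)
  have key : ∀ {p : ℕ → ℕ → Bool} (g : X → Part ℕ), (∀ x b', b' ∈ g x ↔
      b' ∈ ((a.1 x).bind fun a => (b.1 x).bind fun b => Part.some (Nat.pair a b)) ∧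
        p b'.unpair.1 b'.unpair.2 = true) → ∀ᶠ x in k.F, (g x).Dom ↔
          p (vl a.1 x) (vl b.1 x) = true := by
    intro p g hg
    filter_upwards [vl_mem a, vl_mem b] with x ha hb
    have hm : Nat.pair (vl a.1 x) (vl b.1 x) ∈ ((a.1 x).bind fun a => (b.1 x).bind fun b =>
        Part.some (Nat.pair a b)) :=
      Part.mem_bind_iff.2 ⟨_, ha, Part.mem_bind_iff.2 ⟨_, hb, Part.mem_some _⟩⟩
    constructor
    · intro hd
      obtain ⟨c, hc⟩ := Part.dom_iff_mem.1 hd
      obtain ⟨hc1, hc2⟩ := (hg x c).1 hc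
      rw [Part.mem_unique hc1 hm, Nat.unpair_pair] at hc2
      exact hc2
    · intro hd
      refine Part.dom_iff_mem.2 ⟨_, (hg x _).2 ⟨hm, ?_⟩⟩
      rw [Nat.unpair_pair]
      exact hd
  have k1 := key g1 h1'
  have k2 := key g2 h2'
  have h3 : ∀ᶠ x in k.F, (g1 x).Dom ∨ (g2 x).Dom := by
    filter_upwards [h, k1, k2] with x hx e1 e2
    rw [e1, e2]
    exact hx
  rcases k.prm g1 g2 h1 h2 h3 with h4 | h4
  · left
    filter_upwards [h4, k1] with x h5 h6
    exact h6.1 h5
  · right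
    filter_upwards [h4, k2] with x h5 h6
    exact h6.1 h5

theorem notPA (k : Node) : ¬ ModelsPA k.str := by
  intro hPA
  obtain ⟨Θ, hΘ⟩ := exists_formula
  -- variables of `Ψ₀`: `a, e, z, d, β`
  let Θ' : Fm 5 := Θ.subst (fun i => Fin.cases (.var 1) (fun j => Fin.cases (.var 4)
    (fun _ => .var 0) j) i)
  let Ψ : Fm 2 := .ex (.all (.all (.imp (ltV 1 3) (.imp Θ' (ltV 0 2)))))
  have hΨ : ∀ d β : k.D, Sat k.str Ψ (cns d (cns β (fun i => i.elim0))) ↔
      ∃ z : k.D, ∀ e a : k.D, (∀ᶠ x in k.F, vl e.1 x < vl d.1 x) →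
        (∀ᶠ x in k.F, vl a.1 x ∈ appl (vl e.1 x) (vl β.1 x)) →
        ∀ᶠ x in k.F, vl a.1 x < vl z.1 x := by
    intro d β
    refine exists_congr fun z => forall_congr' fun e => forall_congr' fun a => ?_
    refine imp_congr (sat_ltV k _ _ _) (imp_congr ?_ (sat_ltV k _ _ _))
    show Sat k.str (Θ.subst _) _ ↔ _
    rw [sat_subst, hΘ]
    rfl
  have hind := hPA _ (Ax.ind 1 Ψ)
  have hind' : ∀ β : k.D, (Sat k.str (atZero Ψ) (cns β (fun i => i.elim0)) ∧
      ∀ d : k.D, Sat k.str Ψ (cns d (cns β (fun i => i.elim0))) →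
        Sat k.str (atSucc Ψ) (cns d (cns β (fun i => i.elim0)))) →
      ∀ d : k.D, Sat k.str Ψ (cns d (cns β (fun i => i.elim0))) := hind
  -- the parameter `β`
  have hβ : Valid k.n k.F (fun x => Part.some (cd k.n x)) :=
    ⟨Rec.cd _, Eventually.of_forall fun _ => trivial⟩
  let β := k.mk' _ hβ
  have eβ : ∀ᶠ x in k.F, vl β.1 x = cd k.n x := by
    filter_upwards [k.mk'_spec _ hβ] with x hx
    apply vl_of_mem
    show _ ∈ (k.mk' _ hβ).1 x
    rw [← hx]
    exact Part.mem_some _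
  -- the nonstandard element
  have hd0 : Valid k.n k.F (fun x => Part.some (x 0)) :=
    ⟨(Rec.last 0).mono k.pos, Eventually.of_forall fun _ => trivial⟩
  let d0 := k.mk' _ hd0
  have ed0 : ∀ᶠ x in k.F, vl d0.1 x = x 0 := by
    filter_upwards [k.mk'_spec _ hd0] with x hx
    apply vl_of_mem
    show _ ∈ (k.mk' _ hd0).1 x
    rw [← hx]
    exact Part.mem_some _
  have hlt : Computable₂ (fun a b : ℕ => decide (a < b)) := Primrec.nat_lt.decide.to_comp
  have heq : Computable₂ (fun a b : ℕ => decide (a = b)) := (Primrec.eq (α := ℕ)).decide.to_comp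
  have h0 : Sat k.str (atZero Ψ) (cns β (fun i => i.elim0)) := by
    rw [sat_atZero, hΨ]
    refine ⟨β, fun e a he _ => ?_⟩
    have ez := ev_spec k (fun i : Fin 0 => i.elim0) Tm.zero
    filter_upwards [he, ez] with x h1 h2
    have h3 : vl k.str.zero.1 x = 0 := by
      apply vl_of_mem
      change (k.str.zero).1 x = Part.some 0 at h2
      rw [h2]
      exact Part.mem_some _
    rw [h3] at h1
    omega
  have h1 : ∀ d : k.D, Sat k.str Ψ (cns d (cns β (fun i => i.elim0))) →
        Sat k.str (atSucc Ψ) (cns d (cns β (fun i => i.elim0))) := by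
    intro d hd
    rw [sat_atSucc, hΨ]
    obtain ⟨z, hz⟩ := (hΨ d β).1 hd
    -- the value of the successor
    have es : ∀ᶠ x in k.F, vl (k.str.succ d).1 x = vl d.1 x + 1 := by
      have := ev_spec k (fun _ : Fin 1 => d) (Tm.succ (.var 0))
      filter_upwards [this] with x h2
      apply vl_of_mem
      change (k.str.succ d).1 x = Part.some (vl d.1 x + 1) at h2
      rw [h2]
      exact Part.mem_some _
    -- alternatives
    have halt : ∀ e : k.D, (∀ᶠ x in k.F, vl e.1 x < vl (k.str.succ d).1 x) →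
        (∀ᶠ x in k.F, vl e.1 x < vl d.1 x) ∨ (∀ᶠ x in k.F, vl e.1 x = vl d.1 x) := by
      intro e he
      have := alt k e d hlt heq (by
        filter_upwards [he, es] with x h1 h2
        rw [h2] at h1
        simp only [decide_eq_true_eq]
        omega)
      simpa only [decide_eq_true_eq] using this
    by_cases hex : ∃ a : k.D, ∀ᶠ x in k.F, vl a.1 x ∈ appl (vl d.1 x) (vl β.1 x)
    · obtain ⟨a₀, ha₀⟩ := hex
      have hc : Computable₂ (fun a b : ℕ => max a (b + 1)) :=
        (Primrec.nat_max.comp Primrec.fst (Primrec.succ.comp Primrec.snd)).to_comp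
      obtain ⟨z', hz'⟩ := exists_map₂ k z a₀ hc
      refine ⟨z', fun e a he ha => ?_⟩
      rcases halt e he with h2 | h2
      · filter_upwards [hz e a h2 ha, hz'] with x h3 h4
        rw [h4]
        exact lt_of_lt_of_le h3 (le_max_left _ _)
      · filter_upwards [h2, ha, ha₀, hz'] with x h3 h4 h5 h6
        rw [h3] at h4
        rw [Part.mem_unique h4 h5, h6]
        exact lt_of_lt_of_le (Nat.lt_succ_self _) (le_max_right _ _)
    · refine ⟨z, fun e a he ha => ?_⟩
      rcases halt e he with h2 | h2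
      · exact hz e a h2 ha
      · exfalso
        apply hex
        refine ⟨a, ?_⟩
        filter_upwards [h2, ha] with x h3 h4
        rw [← h3]
        exact h4
  obtain ⟨z, hz⟩ := (hΨ d0 β).1 (hind' β ⟨h0, h1⟩ d0)
  obtain ⟨f, hf, hzf⟩ := (k.valid z.1 z.2).1
  obtain ⟨c, hc⟩ := Nat.Partrec.Code.exists_code.1 (Partrec.nat_iff.1 hf)
  have he : Valid k.n k.F (fun _ => Part.some (Encodable.encode c)) := valid_const k _
  let e := k.mk' _ he
  have ee : ∀ᶠ x in k.F, vl e.1 x = Encodable.encode c := by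
    filter_upwards [k.mk'_spec _ he] with x hx
    apply vl_of_mem
    show _ ∈ (k.mk' _ he).1 x
    rw [← hx]
    exact Part.mem_some _
  have h2 := hz e z ?_ ?_
  · obtain ⟨x, hx⟩ := h2.exists
    exact lt_irrefl _ hx
  · filter_upwards [ee, ed0, k.big (Encodable.encode c)] with x h3 h4 h5
    rw [h3, h4]
    exact h5
  · filter_upwards [ee, eβ, vl_mem z] with x h3 h4 h5
    rw [h3, h4]
    unfold appl
    rw [Denumerable.ofNat_encode, hc, ← hzf]
    exact h5

end Pool.Agent.H872R3.KH
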