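import Pool.Agent.H872R3.KH.Defs

/-! Partial recursive functions of the first `n` entries of a sequence. -/

set_option autoImplicit false

namespace Pool.Agent.H872R3.KH

open Nat.Partrec (Code)

/-- sequences -/
abbrev X : Type := ℕ → ℕ

/-- code of the first `n` entries -/
def cd : ℕ → X → ℕ
  | 0, _ => 0
  | n + 1, x => Nat.pair (cd n x) (x n)

/-- Kleene application -/
def appl (e m : ℕ) : Part ℕ := (Denumerable.ofNat Code e).eval m

theorem partrec_appl : Partrec₂ appl :=
  Code.eval_part.comp ((Computable.ofNat Code).comp Computable.fst) Computable.snd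

/-- s-m-n -/
theorem smn {f : ℕ → ℕ →. ℕ} (hf : Partrec₂ f) :
    ∃ h : ℕ → ℕ, Computable h ∧ ∀ a m, appl (h a) m = f a m := by
  have h1 : Nat.Partrec (fun p : ℕ => f p.unpair.1 p.unpair.2) := by
    apply Partrec.nat_iff.1
    exact hf.comp (Computable.fst.comp Computable.unpair) (Computable.snd.comp Computable.unpair)
  obtain ⟨c, hc⟩ := Code.exists_code.1 h1
  refine ⟨fun a => Encodable.encode (Code.curry c a), ?_, ?_⟩
  · exact Computable.encode.comp
      ((Code.primrec₂_curry.to_comp).comp (Computable.const c) Computable.id)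
  · intro a m
    unfold appl
    rw [Denumerable.ofNat_encode, Code.eval_curry, hc]
    simp

/-- `g` is a partial recursive function of the first `n` entries. -/
def Rec (n : ℕ) (g : X → Part ℕ) : Prop := ∃ f : ℕ →. ℕ, Partrec f ∧ ∀ x, g x = f (cd n x)

/-- `x` and `y` have the same first `n` entries. -/
def Agree (n : ℕ) (x y : X) : Prop := ∀ i < n, x i = y i

theorem cd_congr {n : ℕ} {x y : X} (h : Agree n x y) : cd n x = cd n y := by
  induction n with
  | zero => rfl
  | succ n ih =>
    unfold cd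
    rw [ih (fun i hi => h i (by omega)), h n (by omega)]

theorem Rec.congr_agree {n : ℕ} {g : X → Part ℕ} (hg : Rec n g) {x y : X} (h : Agree n x y) :
    g x = g y := by
  obtain ⟨f, -, hf⟩ := hg
  rw [hf, hf, cd_congr h]

theorem Rec.succ {n : ℕ} {g : X → Part ℕ} (hg : Rec n g) : Rec (n + 1) g := by
  obtain ⟨f, hf, hg⟩ := hg
  refine ⟨fun a => f a.unpair.1, hf.comp (Computable.fst.comp Computable.unpair), fun x => ?_⟩
  rw [hg]
  simp [cd]

theorem Rec.mono {n m : ℕ} (h : n ≤ m) {g : X → Part ℕ} (hg : Rec n g) : Rec m g := by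
  induction m, h using Nat.le_induction with
  | base => exact hg
  | succ m _ ih => exact ih.succ

theorem Rec.last (n : ℕ) : Rec (n + 1) (fun x => Part.some (x n)) := by
  refine ⟨fun a => Part.some a.unpair.2,
    (Computable.snd.comp Computable.unpair).partrec, fun x => ?_⟩
  simp [cd]

theorem Rec.cd (n : ℕ) : Rec n (fun x => Part.some (cd n x)) :=
  ⟨fun a => Part.some a, Computable.id.partrec, fun _ => rfl⟩

theorem Rec.const (n c : ℕ) : Rec n (fun _ => Part.some c) :=
  ⟨fun _ => Part.some c, (Computable.const c).partrec, fun _ => rfl⟩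

theorem Rec.none (n : ℕ) : Rec n (fun _ => Part.none) :=
  ⟨fun _ => Part.none, Partrec.none, fun _ => rfl⟩

theorem Rec.bind {n : ℕ} {g : X → Part ℕ} (hg : Rec n g) {F : ℕ →. ℕ} (hF : Partrec F) :
    Rec n (fun x => (g x).bind F) := by
  obtain ⟨f, hf, hg⟩ := hg
  refine ⟨fun a => (f a).bind F, hf.bind (hF.comp Computable.snd).to₂, fun x => ?_⟩
  simp only [hg]

theorem Rec.map {n : ℕ} {g : X → Part ℕ} (hg : Rec n g) {F : ℕ → ℕ} (hF : Computable F) :
    Rec n (fun x => (g x).map F) := by
  obtain ⟨f, hf, hg⟩ := hg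
  refine ⟨fun a => (f a).map F, hf.map (hF.comp Computable.snd).to₂, fun x => ?_⟩
  simp only [hg]

theorem Rec.bind₂ {n : ℕ} {g h : X → Part ℕ} (hg : Rec n g) (hh : Rec n h) {F : ℕ → ℕ →. ℕ}
    (hF : Partrec₂ F) : Rec n (fun x => (g x).bind fun a => (h x).bind fun b => F a b) := by
  obtain ⟨f, hf, hg⟩ := hg
  obtain ⟨f', hf', hh⟩ := hh
  refine ⟨fun c => (f c).bind fun a => (f' c).bind fun b => F a b, ?_, fun x => ?_⟩
  · refine hf.bind ?_
    refine Partrec.bind (hf'.comp Computable.fst) ?_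
    exact hF.comp (Computable.snd.comp Computable.fst) Computable.snd
  · simp only [hg, hh]

theorem Rec.map₂ {n : ℕ} {g h : X → Part ℕ} (hg : Rec n g) (hh : Rec n h) {F : ℕ → ℕ → ℕ}
    (hF : Computable₂ F) :
    Rec n (fun x => (g x).bind fun a => (h x).bind fun b => Part.some (F a b)) :=
  hg.bind₂ hh (F := fun a b => Part.some (F a b)) hF.partrec₂

/-- Parallel search: the value of `k` tells which of `g`, `h` is defined. -/
theorem Rec.merge {n : ℕ} {g h : X → Part ℕ} (hg : Rec n g) (hh : Rec n h) :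
    ∃ k : X → Part ℕ, Rec n k ∧ (∀ x, (k x).Dom ↔ (g x).Dom ∨ (h x).Dom) ∧
      (∀ x, 0 ∈ k x → (g x).Dom) ∧ (∀ x, ∀ a ∈ k x, a ≠ 0 → (h x).Dom) := by
  obtain ⟨f, hf, hg⟩ := hg
  obtain ⟨f', hf', hh⟩ := hh
  have h1 : Partrec (fun a => (f a).map fun _ => (0 : ℕ)) := hf.map (Computable.const 0).to₂
  have h2 : Partrec (fun a => (f' a).map fun _ => (1 : ℕ)) := hf'.map (Computable.const 1).to₂
  obtain ⟨k, hk, hk2⟩ := Partrec.merge' h1 h2
  refine ⟨fun x => k (KH.cd n x), ⟨k, hk, fun _ => rfl⟩, ?_, ?_, ?_⟩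
  · intro x
    rw [hg, hh]
    exact (hk2 _).2
  · intro x hx
    rw [hg]
    rcases (hk2 _).1 0 hx with h | h
    · rw [Part.mem_map_iff] at h
      obtain ⟨b, hb, -⟩ := h
      exact Part.dom_iff_mem.2 ⟨b, hb⟩
    · rw [Part.mem_map_iff] at h
      obtain ⟨b, hb, h0⟩ := h
      omega
  · intro x a hx ha
    rw [hh]
    rcases (hk2 _).1 a hx with h | h
    · rw [Part.mem_map_iff] at h
      obtain ⟨b, hb, h0⟩ := h
      omega
    · rw [Part.mem_map_iff] at h
      obtain ⟨b, hb, -⟩ := h
      exact Part.dom_iff_mem.2 ⟨b, hb⟩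

/-- domains of recursive functions restricted by a decidable test -/
theorem Rec.test {n : ℕ} {g : X → Part ℕ} (hg : Rec n g) {p : ℕ → Bool} (hp : Computable p) :
    ∃ k : X → Part ℕ, Rec n k ∧ ∀ x b, b ∈ k x ↔ b ∈ g x ∧ p b = true := by
  refine ⟨fun x => (g x).bind fun b => bif p b then Part.some b else Part.none,
    hg.bind (F := fun b => bif p b then Part.some b else Part.none) ?_, ?_⟩
  · exact Partrec.cond hp Computable.id.partrec Partrec.none
  · intro x b
    simp only [Part.mem_bind_iff]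
    constructor
    · rintro ⟨a, ha, hb⟩
      cases hpa : p a
      · rw [hpa] at hb
        exact absurd hb (Part.notMem_none _)
      · rw [hpa] at hb
        have : b = a := by simpa using hb
        subst this
        exact ⟨ha, hpa⟩
    · rintro ⟨hb, hpb⟩
      refine ⟨b, hb, ?_⟩
      rw [hpb]
      simp

end Pool.Agent.H872R3.KH
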