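import Pool.Agent.H872R3.KH.HA
import Pool.Agent.Helper844.DPRM

/-! An existential formula defining Kleene application, and its meaning in the nodes. -/

set_option autoImplicit false

namespace Pool.Agent.H872R3.KH

open Filter Dioph

/-- the tuple of the first `m` entries is forgotten -/
def exs : (n m : ℕ) → Fm (n + m) → Fm n
  | _, 0, φ => φ
  | n, m + 1, φ => exs n m (.ex φ)

theorem sat_exs {M : Type} (A : Str M) {n : ℕ} (v : Fin n → M) : ∀ (m : ℕ) (φ : Fm (n + m)),
    Sat A (exs n m φ) v ↔ ∃ w : Fin (n + m) → M, (∀ i : Fin n, w (i.addNat m) = v i) ∧ Sat A φ w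
  | 0, φ => by
    constructor
    · intro h
      exact ⟨v, fun i => rfl, h⟩
    · rintro ⟨w, hw, h⟩
      have : w = v := funext fun i => hw i
      rw [← this]
      exact h
  | m + 1, φ => by
    show Sat A (exs n m (.ex φ)) v ↔ _
    rw [sat_exs A v m]
    constructor
    · rintro ⟨w, hw, a, ha⟩
      exact ⟨cns a w, fun i => hw i, ha⟩
    · rintro ⟨w, hw, h⟩
      refine ⟨fun i => w i.succ, fun i => hw i, w 0, ?_⟩
      have : (cns (w 0) (fun i => w i.succ) : Fin (n + m + 1) → M) = w := by
        funext i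
        refine Fin.cases rfl (fun j => rfl) i
      rw [this]
      exact h

/-- numerals -/
def num {n : ℕ} : ℕ → Tm n
  | 0 => .zero
  | k + 1 => .succ (num k)

theorem num_ev {n : ℕ} (k : ℕ) (v : Fin n → ℕ) : (num k : Tm n).ev stdN v = k := by
  induction k with
  | zero => rfl
  | succ k ih =>
    show Nat.succ ((num k : Tm n).ev stdN v) = k + 1
    rw [ih]

theorem poly_terms {n : ℕ} (p : Poly (Fin n)) :
    ∃ P Q : Tm n, ∀ v, p v = ((P.ev stdN v : ℕ) : ℤ) - ((Q.ev stdN v : ℕ) : ℤ) := by
  refine Poly.induction (C := fun p => ∃ P Q : Tm n, ∀ v, p v =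
    ((P.ev stdN v : ℕ) : ℤ) - ((Q.ev stdN v : ℕ) : ℤ)) ?_ ?_ ?_ ?_ p
  · intro i
    exact ⟨.var i, .zero, fun v => by simp [Tm.ev, stdN]⟩
  · intro c
    refine ⟨num c.toNat, num (-c).toNat, fun v => ?_⟩
    rw [num_ev, num_ev, Poly.const_apply]
    omega
  · rintro f g ⟨P, Q, h⟩ ⟨P', Q', h'⟩
    refine ⟨.add P Q', .add Q P', fun v => ?_⟩
    rw [Poly.sub_apply, h, h']
    simp only [Tm.ev, stdN]
    push_cast
    ring
  · rintro f g ⟨P, Q, h⟩ ⟨P', Q', h'⟩
    refine ⟨.add (.mul P P') (.mul Q Q'), .add (.mul P Q') (.mul Q P'), fun v => ?_⟩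
    rw [Poly.mul_apply, h, h']
    simp only [Tm.ev, stdN]
    push_cast
    ring

theorem computable_ev {n : ℕ} (t : Tm n) : Computable (fun v : Fin n → ℕ => t.ev stdN v) := by
  induction t with
  | var i => exact (Primrec.fin_app.comp Primrec.id (Primrec.const i)).to_comp
  | zero => exact Computable.const 0
  | succ t ih => exact Computable.succ.comp ih
  | add t s iht ihs => exact computable_add.comp iht ihs
  | mul t s iht ihs => exact computable_mul.comp iht ihs

/-- decoding of tuples -/
def dec (N : ℕ) (t : ℕ) : Fin N → ℕ :=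
  (@Encodable.decode (Fin N → ℕ) Primcodable.toEncodable t).getD (fun _ => 0)

/-- coding of tuples -/
def enc {N : ℕ} (w : Fin N → ℕ) : ℕ := @Encodable.encode (Fin N → ℕ) Primcodable.toEncodable w

theorem computable_dec (N : ℕ) : Computable (dec N) :=
  Computable.option_getD Computable.decode (Computable.const _)

theorem dec_enc {N : ℕ} (w : Fin N → ℕ) : dec N (enc w) = w := by
  unfold dec enc
  rw [@Encodable.encodek _ Primcodable.toEncodable w]
  rfl

theorem computable_dec_app {N : ℕ} (j : Fin N) : Computable (fun t => dec N t j) :=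
  ((Primrec.fin_app.comp Primrec.id (Primrec.const j)).to_comp).comp (computable_dec N)

/-- a polynomial relation between three numbers with unbounded existential quantifiers -/
theorem exists_theta : ∃ (m : ℕ) (P Q : Tm (3 + m)), ∀ v : Fin 3 → ℕ,
    v 2 ∈ appl (v 0) (v 1) ↔ ∃ w : Fin (3 + m) → ℕ, (∀ i : Fin 3, w (i.addNat m) = v i) ∧
      P.ev stdN w = Q.ev stdN w := by
  have h1 : Nat.Partrec (fun p : ℕ => appl p.unpair.1 p.unpair.2) := by
    apply Partrec.nat_iff.1
    exact partrec_appl.comp (Computable.fst.comp Computable.unpair)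
      (Computable.snd.comp Computable.unpair)
  have h2 := Helper844.Dio.DR.of_partrec h1 (α := Fin 3)
    (Helper844.Dio.pair_dioph (proj_dioph 0) (proj_dioph 1)) (proj_dioph 2)
  obtain ⟨δ, _, p, hp⟩ := Helper844.Dio.finite_dummies h2
  obtain ⟨m, ⟨e⟩⟩ := Finite.exists_equiv_fin δ
  -- renaming of the variables
  let f : Fin 3 ⊕ δ → Fin (3 + m) := Sum.elim (fun i => i.addNat m)
    (fun d => Fin.cast (by omega) ((e d).castAdd 3))
  obtain ⟨P, Q, hPQ⟩ := poly_terms (p.map f)
  refine ⟨m, P, Q, fun v => ?_⟩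
  have h3 := hp v
  have h4 : (v ∈ {v : Fin 3 → ℕ | v 2 ∈ appl (Nat.pair (v 0) (v 1)).unpair.1
      (Nat.pair (v 0) (v 1)).unpair.2}) ↔ v 2 ∈ appl (v 0) (v 1) := by
    show v 2 ∈ appl (Nat.pair (v 0) (v 1)).unpair.1 (Nat.pair (v 0) (v 1)).unpair.2 ↔ _
    rw [Nat.unpair_pair]
  rw [h4] at h3
  rw [h3]
  constructor
  · rintro ⟨t, ht⟩
    refine ⟨fun i => if h : i.1 < m then t (e.symm ⟨i.1, h⟩) else
      if h' : i.1 - m < 3 then v ⟨i.1 - m, h'⟩ else 0, ?_, ?_⟩
    · intro i
      have h5 : ¬ (i.1 + m < m) := by omega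
      have h6 : i.1 + m - m < 3 := by have := i.2; omega
      simp only [Fin.val_addNat, h5, h6, dif_pos, dif_neg, not_false_eq_true]
      congr 1
      ext
      simp
    · have h5 := hPQ (fun i => if h : i.1 < m then t (e.symm ⟨i.1, h⟩) else
        if h' : i.1 - m < 3 then v ⟨i.1 - m, h'⟩ else 0)
      rw [Poly.map_apply] at h5
      have h6 : ((fun i : Fin (3 + m) => if h : i.1 < m then t (e.symm ⟨i.1, h⟩) else
        if h' : i.1 - m < 3 then v ⟨i.1 - m, h'⟩ else 0) ∘ f) = Sum.elim v t := by
        funext i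
        rcases i with i | i
        · have h5 : ¬ (i.1 + m < m) := by omega
          have h6 : i.1 + m - m < 3 := by have := i.2; omega
          show (if h : i.1 + m < m then t (e.symm ⟨i.1 + m, h⟩) else
            if h' : i.1 + m - m < 3 then v ⟨i.1 + m - m, h'⟩ else 0) = v i
          rw [dif_neg h5, dif_pos h6]
          exact congrArg v (Fin.ext (by simp))
        · simp [f]
      rw [h6, ht] at h5
      omega
  · rintro ⟨w, hw, he⟩
    refine ⟨fun d => w (f (Sum.inr d)), ?_⟩
    have h5 := hPQ w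
    rw [Poly.map_apply, he, sub_self] at h5
    rw [← h5]
    congr 1
    funext i
    rcases i with i | i
    · exact (hw i).symm
    · rfl

/-- a formula for `{x_0}(x_1) = x_2` -/
theorem exists_formula : ∃ Θ : Fm 3, ∀ (k : Node) (u : Fin 3 → k.D), Sat k.str Θ u ↔
    ∀ᶠ x in k.F, vl (u 2).1 x ∈ appl (vl (u 0).1 x) (vl (u 1).1 x) := by
  obtain ⟨tm, P, Q, spec⟩ := exists_theta
  refine ⟨exs 3 tm (.eq P Q), fun k u => ?_⟩
  rw [sat_exs]
  change (∃ w : Fin (3 + tm) → k.D, (∀ i : Fin 3, w (i.addNat tm) = u i) ∧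
    P.ev k.str w = Q.ev k.str w) ↔ _
  constructor
  · rintro ⟨w, hw, he⟩
    rw [eq_iff] at he
    filter_upwards [he] with x hx
    refine (spec (vls u x)).2 ⟨vls w x, fun i => ?_, hx⟩
    show vl (w (i.addNat tm)).1 x = vl (u i).1 x
    rw [hw]
  · intro h
    -- the search
    let test : ℕ → ℕ → Bool := fun c t => decide
      (((dec (3 + tm) t ((0 : Fin 3).addNat tm) = c.unpair.1.unpair.1 ∧
      dec (3 + tm) t ((1 : Fin 3).addNat tm) = c.unpair.1.unpair.2) ∧
      dec (3 + tm) t ((2 : Fin 3).addNat tm) = c.unpair.2) ∧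
      P.ev stdN (dec (3 + tm) t) = Q.ev stdN (dec (3 + tm) t))
    have htest : Computable₂ test := by
      have cE : ∀ {f g : ℕ × ℕ → ℕ}, Computable f → Computable g →
          Computable (fun a => decide (f a = g a)) := by
        intro f g hf hg
        exact ((Primrec.eq (α := ℕ)).decide.to_comp).comp hf hg
      have cA : ∀ {f g : ℕ × ℕ → Bool}, Computable f → Computable g →
          Computable (fun a => f a && g a) := by
        intro f g hf hg
        exact (Primrec.and.to_comp).comp hf hg
      have c1 : Computable (fun a : ℕ × ℕ => a.1.unpair.1.unpair.1) :=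
        Computable.fst.comp (Computable.unpair.comp (Computable.fst.comp
          (Computable.unpair.comp Computable.fst)))
      have c2 : Computable (fun a : ℕ × ℕ => a.1.unpair.1.unpair.2) :=
        Computable.snd.comp (Computable.unpair.comp (Computable.fst.comp
          (Computable.unpair.comp Computable.fst)))
      have c3 : Computable (fun a : ℕ × ℕ => a.1.unpair.2) :=
        Computable.snd.comp (Computable.unpair.comp Computable.fst)
      have key := cA (cA (cA
        (cE ((computable_dec_app ((0 : Fin 3).addNat tm)).comp Computable.snd) c1)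
        (cE ((computable_dec_app ((1 : Fin 3).addNat tm)).comp Computable.snd) c2))
        (cE ((computable_dec_app ((2 : Fin 3).addNat tm)).comp Computable.snd) c3))
        (cE ((computable_ev P).comp ((computable_dec (3 + tm)).comp Computable.snd))
          ((computable_ev Q).comp ((computable_dec (3 + tm)).comp Computable.snd)))
      refine key.of_eq fun a => ?_
      simp only [test, Bool.decide_and, Bool.and_assoc]
    let srch : ℕ →. ℕ := fun c => Nat.rfind (fun t => Part.some (test c t))
    have hsrch : Partrec srch := Partrec.rfind htest.partrec₂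
    have v0 := k.valid (u 0).1 (u 0).2
    have v1 := k.valid (u 1).1 (u 1).2
    have v2 := k.valid (u 2).1 (u 2).2
    have r3 := (((v0.1.map₂ v1.1 (F := fun a b => Nat.pair a b) Primrec₂.natPair.to_comp)).map₂
      v2.1 (F := fun a b => Nat.pair a b) Primrec₂.natPair.to_comp)
    have r4 := r3.bind hsrch
    -- the values of the search
    have hval : ∀ᶠ x in k.F, ∃ t, t ∈ ((((((u 0).1 x).bind fun a => ((u 1).1 x).bind fun b =>
        Part.some (Nat.pair a b))).bind fun a => ((u 2).1 x).bind fun b =>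
        Part.some (Nat.pair a b)).bind srch) ∧
        (∀ i : Fin 3, dec (3 + tm) t (i.addNat tm) = vls u x i) ∧
        P.ev stdN (dec (3 + tm) t) = Q.ev stdN (dec (3 + tm) t) := by
      filter_upwards [h, v0.2, v1.2, v2.2] with x hx d0 d1 d2
      obtain ⟨w, hw, he⟩ := (spec (vls u x)).1 hx
      have e0 : vl (u 0).1 x ∈ (u 0).1 x := by rw [vl_spec d0]; exact Part.mem_some _
      have e1 : vl (u 1).1 x ∈ (u 1).1 x := by rw [vl_spec d1]; exact Part.mem_some _
      have e2 : vl (u 2).1 x ∈ (u 2).1 x := by rw [vl_spec d2]; exact Part.mem_some _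
      let c := Nat.pair (Nat.pair (vl (u 0).1 x) (vl (u 1).1 x)) (vl (u 2).1 x)
      have ht0 : test c (enc w) = true := by
        simp only [test, c, dec_enc, Nat.unpair_pair, decide_eq_true_eq]
        exact ⟨⟨⟨hw 0, hw 1⟩, hw 2⟩, he⟩
      have hdom : (srch c).Dom := by
        refine Nat.rfind_dom.2 ⟨enc w, ?_, fun _ => trivial⟩
        rw [ht0]
        exact Part.mem_some _
      obtain ⟨t, ht⟩ := Part.dom_iff_mem.1 hdom
      have ht1 : test c t = true := by
        have := Nat.rfind_spec ht
        simpa using this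
      simp only [test, c, Nat.unpair_pair, decide_eq_true_eq] at ht1
      refine ⟨t, ?_, ?_, ht1.2⟩
      · refine Part.mem_bind_iff.2 ⟨c, ?_, ht⟩
        exact Part.mem_bind_iff.2 ⟨Nat.pair (vl (u 0).1 x) (vl (u 1).1 x),
          Part.mem_bind_iff.2 ⟨_, e0, Part.mem_bind_iff.2 ⟨_, e1, Part.mem_some _⟩⟩,
          Part.mem_bind_iff.2 ⟨_, e2, Part.mem_some _⟩⟩
      · intro i
        fin_cases i
        · exact ht1.1.1.1
        · exact ht1.1.1.2
        · exact ht1.1.2
    have hv4 : Valid k.n k.F _ := ⟨r4, hval.mono fun x hx => by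
      obtain ⟨t, ht, -⟩ := hx
      exact Part.dom_iff_mem.2 ⟨t, ht⟩⟩
    let w : Fin (3 + tm) → k.D := fun j => k.mk' _ (hv4.map (computable_dec_app j))
    have hw : ∀ j, ∀ᶠ x in k.F, ∀ t, t ∈ ((((((u 0).1 x).bind fun a => ((u 1).1 x).bind fun b =>
        Part.some (Nat.pair a b))).bind fun a => ((u 2).1 x).bind fun b =>
        Part.some (Nat.pair a b)).bind srch) → vl (w j).1 x = dec (3 + tm) t j := by
      intro j
      filter_upwards [k.mk'_spec _ (hv4.map (computable_dec_app j))] with x hx t ht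
      apply vl_of_mem
      show _ ∈ (k.mk' _ (hv4.map (computable_dec_app j))).1 x
      rw [← hx]
      exact Part.mem_map _ ht
    have hw' := eventually_all.2 hw
    refine ⟨w, fun i => ?_, ?_⟩
    · -- equality of elements
      have := (eq_iff k (cns (w (i.addNat tm)) (cns (u i) (fun i : Fin 0 => i.elim0)))
        (.var 0) (.var 1)).2 ?_
      · exact this
      · filter_upwards [hval, hw'] with x hx hx'
        obtain ⟨t, ht, ht1, -⟩ := hx
        show vl (w (i.addNat tm)).1 x = vl (u i).1 x
        rw [hx' _ t ht, ht1]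
        rfl
    · rw [eq_iff]
      filter_upwards [hval, hw'] with x hx hx'
      obtain ⟨t, ht, -, ht2⟩ := hx
      have : vls w x = dec (3 + tm) t := funext fun j => hx' j t ht
      rw [this, ht2]

end Pool.Agent.H872R3.KH
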