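import Pool.Agent.H872R3.KH.Node

/-! Forcing in the Kripke model is realizability on a set of the filter. -/

set_option autoImplicit false

namespace Pool.Agent.H872R3.KH

open Filter

/-- Kleene realizability -/
def real : {n : ℕ} → Fm n → ℕ → (Fin n → ℕ) → Prop
  | _, .bot, _, _ => False
  | _, .eq t s, _, v => t.ev stdN v = s.ev stdN v
  | _, .and φ ψ, e, v => real φ e.unpair.1 v ∧ real ψ e.unpair.2 v
  | _, .or φ ψ, e, v => (e.unpair.1 = 0 ∧ real φ e.unpair.2 v) ∨
      (e.unpair.1 ≠ 0 ∧ real ψ e.unpair.2 v)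
  | _, .imp φ ψ, e, v => ∀ m, real φ m v → ∃ w ∈ appl e m, real ψ w v
  | _, .all φ, e, v => ∀ m, ∃ w ∈ appl e m, real φ w (cns m v)
  | _, .ex φ, e, v => real φ e.unpair.2 (cns e.unpair.1 v)

/-- realized at a node -/
def R (k : Node) {m : ℕ} (φ : Fm m) (u : Fin m → k.D) : Prop :=
  ∃ g, Rec k.n g ∧ ∀ᶠ x in k.F, ∃ e ∈ g x, real φ e (vls u x)

theorem vls_agree {k : Node} {m : ℕ} (u : Fin m → k.D) {x y : X} (h : Agree k.n x y) :
    vls u x = vls u y := by
  funext i
  have h1 : (u i).1 x = (u i).1 y := (k.valid _ (u i).2).1.congr_agree h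
  unfold vls vl
  rw [h1]

/-- the last entry as an element of a node -/
theorem R_mono {k l : Node} (h : k ≤ l) {m : ℕ} (φ : Fm m) (u : Fin m → k.D) (hR : R k φ u) :
    R l φ (fun i => Set.inclusion h.2.2 (u i)) := by
  obtain ⟨g, hg, hg2⟩ := hR
  exact ⟨g, hg.mono h.1, h.2.1 hg2⟩

theorem real_cns {k : Node} {m : ℕ} (φ : Fm (m + 1)) (e : ℕ) (a : k.D) (u : Fin m → k.D)
    (x : X) : real φ e (vls (cns a u) x) ↔ real φ e (cns (vl a.1 x) (vls u x)) := by
  rw [vls_cns]

theorem upd {n : ℕ} (x : X) (m : ℕ) : Agree n x (Function.update x n m) := by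
  intro i hi
  rw [Function.update_of_ne (by omega)]

theorem cd_upd (n : ℕ) (x : X) (m : ℕ) :
    cd (n + 1) (Function.update x n m) = Nat.pair (cd n x) m := by
  show Nat.pair (cd n (Function.update x n m)) (Function.update x n m n) = _
  rw [← cd_congr (upd x m), Function.update_self]

/-- currying: a function of the first `n + 1` entries gives a code depending on the first `n` -/
theorem curry_rec {n : ℕ} {g : X → Part ℕ} (hg : Rec (n + 1) g) :
    ∃ h : ℕ → ℕ, Computable h ∧ ∀ x m, appl (h (cd n x)) m = g (Function.update x n m) := by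
  obtain ⟨f, hf, hg⟩ := hg
  have hf2 : Partrec₂ (fun a m => f (Nat.pair a m)) :=
    (hf.comp (Primrec₂.natPair.to_comp)).to₂
  obtain ⟨h, hh, hh2⟩ := smn hf2
  refine ⟨h, hh, fun x m => ?_⟩
  rw [hh2, hg, cd_upd]

theorem partrec_appl' : Partrec (fun c : ℕ => appl c.unpair.1 c.unpair.2) :=
  partrec_appl.comp (Computable.fst.comp Computable.unpair)
    (Computable.snd.comp Computable.unpair)

theorem truth {m : ℕ} (φ : Fm m) : ∀ (k : Node) (u : Fin m → k.D),
    model.Forces φ k u ↔ R k φ u := by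
  induction φ with
  | bot =>
    intro k u
    constructor
    · intro h; exact h.elim
    · rintro ⟨g, -, hg⟩
      obtain ⟨x, e, -, he⟩ := hg.exists
      exact he
  | eq t s =>
    intro k u
    show t.ev k.str u = s.ev k.str u ↔ _
    rw [eq_iff]
    constructor
    · intro h
      exact ⟨_, Rec.const _ 0, h.mono fun x hx => ⟨0, Part.mem_some _, hx⟩⟩
    · rintro ⟨g, -, hg⟩
      exact hg.mono fun x ⟨e, _, he⟩ => he
  | and φ ψ ihφ ihψ =>
    intro k u
    show model.Forces φ k u ∧ model.Forces ψ k u ↔ _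
    rw [ihφ, ihψ]
    constructor
    · rintro ⟨⟨g, hg, hg2⟩, h, hh, hh2⟩
      refine ⟨_, hg.map₂ hh Primrec₂.natPair.to_comp, ?_⟩
      filter_upwards [hg2, hh2] with x ⟨a, ha, ha2⟩ ⟨b, hb, hb2⟩
      refine ⟨Nat.pair a b, Part.mem_bind_iff.2 ⟨a, ha, Part.mem_bind_iff.2
        ⟨b, hb, Part.mem_some _⟩⟩, ?_⟩
      unfold real
      rw [Nat.unpair_pair]
      exact ⟨ha2, hb2⟩
    · rintro ⟨g, hg, hg2⟩
      refine ⟨⟨_, hg.map (Computable.fst.comp Computable.unpair), ?_⟩,
        ⟨_, hg.map (Computable.snd.comp Computable.unpair), ?_⟩⟩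
      · filter_upwards [hg2] with x ⟨a, ha, ha2⟩
        exact ⟨_, Part.mem_map _ ha, ha2.1⟩
      · filter_upwards [hg2] with x ⟨a, ha, ha2⟩
        exact ⟨_, Part.mem_map _ ha, ha2.2⟩
  | or φ ψ ihφ ihψ =>
    intro k u
    show model.Forces φ k u ∨ model.Forces ψ k u ↔ _
    rw [ihφ, ihψ]
    constructor
    · rintro (⟨g, hg, hg2⟩ | ⟨g, hg, hg2⟩)
      · refine ⟨_, hg.map (F := fun a => Nat.pair 0 a)
          (Primrec₂.natPair.to_comp.comp (Computable.const 0) Computable.id), ?_⟩
        filter_upwards [hg2] with x ⟨a, ha, ha2⟩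
        refine ⟨_, Part.mem_map _ ha, Or.inl ?_⟩
        rw [Nat.unpair_pair]
        exact ⟨rfl, ha2⟩
      · refine ⟨_, hg.map (F := fun a => Nat.pair 1 a)
          (Primrec₂.natPair.to_comp.comp (Computable.const 1) Computable.id), ?_⟩
        filter_upwards [hg2] with x ⟨a, ha, ha2⟩
        refine ⟨_, Part.mem_map _ ha, Or.inr ?_⟩
        rw [Nat.unpair_pair]
        exact ⟨Nat.one_ne_zero, ha2⟩
    · rintro ⟨g, hg, hg2⟩
      have c1 : Computable (fun c : ℕ => decide (c.unpair.1 = 0)) :=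
        (Primrec.eq.comp (Primrec.fst.comp Primrec.unpair) (Primrec.const 0)).decide.to_comp
      have c2 : Computable (fun c : ℕ => !decide (c.unpair.1 = 0)) :=
        (Primrec.not.to_comp).comp c1
      obtain ⟨k1, hk1, hk1'⟩ := hg.test c1
      obtain ⟨k2, hk2, hk2'⟩ := hg.test c2
      have key : ∀ᶠ x in k.F, (k1 x).Dom ∨ (k2 x).Dom := by
        filter_upwards [hg2] with x ⟨a, ha, ha2⟩
        by_cases h0 : a.unpair.1 = 0
        · left
          exact Part.dom_iff_mem.2 ⟨a, (hk1' x a).2 ⟨ha, by simpa using h0⟩⟩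
        · right
          exact Part.dom_iff_mem.2 ⟨a, (hk2' x a).2 ⟨ha, by simpa using h0⟩⟩
      rcases k.prm k1 k2 hk1 hk2 key with h1 | h1
      · left
        refine ⟨_, hg.map (Computable.snd.comp Computable.unpair), ?_⟩
        filter_upwards [hg2, h1] with x ⟨a, ha, ha2⟩ hd
        refine ⟨_, Part.mem_map _ ha, ?_⟩
        obtain ⟨c, hc⟩ := Part.dom_iff_mem.1 hd
        obtain ⟨hc1, hc2⟩ := (hk1' x c).1 hc
        have := Part.mem_unique ha hc1
        subst this
        have h0 : a.unpair.1 = 0 := by simpa using hc2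
        rcases ha2 with ⟨-, h⟩ | ⟨h, -⟩
        · exact h
        · exact absurd h0 h
      · right
        refine ⟨_, hg.map (Computable.snd.comp Computable.unpair), ?_⟩
        filter_upwards [hg2, h1] with x ⟨a, ha, ha2⟩ hd
        refine ⟨_, Part.mem_map _ ha, ?_⟩
        obtain ⟨c, hc⟩ := Part.dom_iff_mem.1 hd
        obtain ⟨hc1, hc2⟩ := (hk2' x c).1 hc
        have := Part.mem_unique ha hc1
        subst this
        have h0 : a.unpair.1 ≠ 0 := by simpa using hc2
        rcases ha2 with ⟨h, -⟩ | ⟨-, h⟩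
        · exact absurd h h0
        · exact h
  | imp φ ψ ihφ ihψ =>
    intro k u
    show (∀ (l : Node) (h : k ≤ l), model.Forces φ l (fun i => Set.inclusion h.2.2 (u i)) →
      model.Forces ψ l (fun i => Set.inclusion h.2.2 (u i))) ↔ _
    constructor
    · intro hf
      by_contra hR
      let F₁ : Filter X := k.F ⊓ 𝓟 {x | real φ (x k.n) (vls u x)}
      have hdet : Det (k.n + 1) F₁ := by
        intro A hA
        obtain ⟨B, hB, hBA, hBs⟩ := k.det _ (mem_inf_principal.1 hA)
        refine ⟨B ∩ {x | real φ (x k.n) (vls u x)}, mem_inf_principal.2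
          (mem_of_superset hB fun x hx h => ⟨hx, h⟩), fun x hx => hBA hx.1 hx.2, ?_⟩
        rintro x ⟨hx, hx2⟩ y hxy
        have hxy' : Agree k.n x y := fun i hi => hxy i (by omega)
        refine ⟨hBs x hx y hxy', ?_⟩
        show real φ (y k.n) (vls u y)
        rw [← vls_agree u hxy', ← hxy k.n (by omega)]
        exact hx2
      obtain ⟨l, hkl, hln, hlF, hlP⟩ := k.extend F₁ inf_le_left hdet
        (fun x e => real ψ e (vls u x)) (by
          rintro ⟨g, hg, hg2⟩
          apply hR
          obtain ⟨h, hh, hh2⟩ := curry_rec hg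
          refine ⟨fun x => Part.some (h (cd k.n x)), (Rec.cd k.n).map hh |> fun r => by
            simpa using r, ?_⟩
          obtain ⟨B, hB, hBA, hBs⟩ := k.det _ (mem_inf_principal.1 hg2)
          refine mem_of_superset hB fun x hx => ?_
          refine ⟨_, Part.mem_some _, ?_⟩
          intro m hm
          have hy := hBs x hx (Function.update x k.n m) (upd x m)
          have h1 := hBA hy
          have h2 : real φ (Function.update x k.n m k.n) (vls u (Function.update x k.n m)) := by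
            rw [← vls_agree u (upd x m), Function.update_self]
            exact hm
          obtain ⟨w, hw, hw2⟩ := h1 h2
          rw [← vls_agree u (upd x m)] at hw2
          exact ⟨w, by rw [hh2]; exact hw, hw2⟩)
      apply hlP
      have h1 : R l φ (fun i => Set.inclusion hkl.2.2 (u i)) := by
        refine ⟨fun x => Part.some (x k.n), by rw [hln]; exact Rec.last k.n, ?_⟩
        have : ∀ᶠ x in F₁, real φ (x k.n) (vls u x) := mem_inf_of_right (mem_principal_self _)
        filter_upwards [hlF this] with x hx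
        exact ⟨_, Part.mem_some _, hx⟩
      have h2 := (ihψ l _).1 (hf l hkl ((ihφ l _).2 h1))
      obtain ⟨g, hg, hg2⟩ := h2
      exact ⟨g, by rw [← hln]; exact hg, hg2⟩
    · rintro ⟨g, hg, hg2⟩ l hkl hφ
      refine (ihψ l _).2 ?_
      obtain ⟨h, hh, hh2⟩ := (ihφ l _).1 hφ
      refine ⟨_, (hg.mono hkl.1).bind₂ hh partrec_appl, ?_⟩
      filter_upwards [hkl.2.1 hg2, hh2] with x ⟨a, ha, ha2⟩ ⟨b, hb, hb2⟩
      obtain ⟨w, hw, hw2⟩ := ha2 b hb2
      exact ⟨w, Part.mem_bind_iff.2 ⟨a, ha, Part.mem_bind_iff.2 ⟨b, hb, hw⟩⟩, hw2⟩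
  | all φ ih =>
    intro k u
    show (∀ (l : Node) (h : k ≤ l) (a : l.D),
      model.Forces φ l (cns a (fun i => Set.inclusion h.2.2 (u i)))) ↔ _
    constructor
    · intro hf
      by_contra hR
      have hdet : Det (k.n + 1) k.F := by
        intro A hA
        obtain ⟨B, hB, hBA, hBs⟩ := k.det _ hA
        exact ⟨B, hB, hBA, fun x hx y hxy => hBs x hx y fun i hi => hxy i (by omega)⟩
      obtain ⟨l, hkl, hln, hlF, hlP⟩ := k.extend k.F le_rfl hdet
        (fun x e => real φ e (cns (x k.n) (vls u x))) (by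
          rintro ⟨g, hg, hg2⟩
          apply hR
          obtain ⟨h, hh, hh2⟩ := curry_rec hg
          refine ⟨fun x => Part.some (h (cd k.n x)), (Rec.cd k.n).map hh |> fun r => by
            simpa using r, ?_⟩
          obtain ⟨B, hB, hBA, hBs⟩ := k.det _ hg2
          refine mem_of_superset hB fun x hx => ?_
          refine ⟨_, Part.mem_some _, ?_⟩
          intro m
          have hy := hBs x hx (Function.update x k.n m) (upd x m)
          obtain ⟨w, hw, hw2⟩ := hBA hy
          rw [← vls_agree u (upd x m), Function.update_self] at hw2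
          exact ⟨w, by rw [hh2]; exact hw, hw2⟩)
      apply hlP
      have hval : Valid l.n l.F (fun x => Part.some (x k.n)) :=
        ⟨by rw [hln]; exact Rec.last k.n, Eventually.of_forall fun _ => trivial⟩
      obtain ⟨g, hg, hg2⟩ := (ih l _).1 (hf l hkl (l.mk' _ hval))
      refine ⟨g, by rw [← hln]; exact hg, ?_⟩
      filter_upwards [hg2, l.mk'_spec _ hval] with x ⟨e, he, he2⟩ h3
      refine ⟨e, he, ?_⟩
      have he3 : real φ e (cns (vl (l.mk' _ hval).1 x) (vls u x)) :=
        (real_cns φ e (l.mk' _ hval) (fun i => Set.inclusion hkl.2.2 (u i)) x).1 he2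
      have h4 : vl (l.mk' _ hval).1 x = x k.n := by
        apply vl_of_mem
        rw [← h3]
        exact Part.mem_some _
      rw [h4] at he3
      exact he3
    · rintro ⟨g, hg, hg2⟩ l hkl a
      refine (ih l _).2 ?_
      obtain ⟨ra, da⟩ := l.valid a.1 a.2
      refine ⟨_, (hg.mono hkl.1).bind₂ ra partrec_appl, ?_⟩
      filter_upwards [hkl.2.1 hg2, da] with x ⟨e, he, he2⟩ hd
      obtain ⟨w, hw, hw2⟩ := he2 (vl a.1 x)
      refine ⟨w, Part.mem_bind_iff.2 ⟨e, he, Part.mem_bind_iff.2 ⟨vl a.1 x, ?_, hw⟩⟩, ?_⟩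
      · rw [vl_spec hd]
        exact Part.mem_some _
      · exact (real_cns φ w a (fun i => Set.inclusion hkl.2.2 (u i)) x).2 hw2
  | ex φ ih =>
    intro k u
    show (∃ a : k.D, model.Forces φ k (cns a u)) ↔ _
    constructor
    · rintro ⟨a, ha⟩
      obtain ⟨g, hg, hg2⟩ := (ih k _).1 ha
      obtain ⟨ra, da⟩ := k.valid a.1 a.2
      refine ⟨_, ra.map₂ hg Primrec₂.natPair.to_comp, ?_⟩
      filter_upwards [hg2, da] with x ⟨e, he, he2⟩ hd
      refine ⟨Nat.pair (vl a.1 x) e, Part.mem_bind_iff.2 ⟨vl a.1 x, ?_, Part.mem_bind_iff.2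
        ⟨e, he, Part.mem_some _⟩⟩, ?_⟩
      · rw [vl_spec hd]
        exact Part.mem_some _
      · unfold real
        rw [Nat.unpair_pair]
        exact (real_cns φ e a u x).1 he2
    · rintro ⟨g, hg, hg2⟩
      have hval : Valid k.n k.F (fun x => (g x).map fun e => e.unpair.1) :=
        ⟨hg.map (Computable.fst.comp Computable.unpair),
          hg2.mono fun x ⟨e, he, _⟩ => Part.dom_iff_mem.2 ⟨_, Part.mem_map _ he⟩⟩
      refine ⟨k.mk' _ hval, (ih k _).2 ?_⟩
      refine ⟨_, hg.map (Computable.snd.comp Computable.unpair), ?_⟩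
      filter_upwards [hg2, k.mk'_spec _ hval] with x ⟨e, he, he2⟩ h3
      refine ⟨_, Part.mem_map _ he, ?_⟩
      refine (real_cns φ _ (k.mk' _ hval) u x).2 ?_
      have h4 : vl (k.mk' _ hval).1 x = e.unpair.1 := by
        apply vl_of_mem
        rw [← h3]
        exact Part.mem_map _ he
      rw [h4]
      exact he2

end Pool.Agent.H872R3.KH
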